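import Pool.Agent.Lib.TWt.Defs

/-!
# Simple facts about weighted trees
-/

set_option autoImplicit false

namespace Pool.Agent.Lib.TWt

open Pool.Agent.Lib.TDen

lemma Kd.pos {x y G : ℝ} (h : Kd x y G) : 0 < x ∧ 0 < y ∧ 0 < G ∧ x ≤ G ∧ y ≤ G := by
  rcases h with ⟨rfl, rfl, rfl⟩ | ⟨rfl, rfl, rfl⟩ | ⟨rfl, rfl, rfl⟩ <;> norm_num

lemma Kd.swap {x y G : ℝ} (h : Kd x y G) : Kd y x G := by
  rcases h with ⟨hx, hy, hG⟩ | ⟨hx, hy, hG⟩ | ⟨hx, hy, hG⟩
  · exact Or.inl ⟨hy, hx, hG⟩
  · exact Or.inr (Or.inr ⟨hy, hx, hG⟩)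
  · exact Or.inr (Or.inl ⟨hy, hx, hG⟩)

variable {D : Diagram} {x y : D.E → ℝ} {A B : Finset D.E}

private lemma mem_rest'' {D : Diagram} {A B : Finset D.E} {e : D.E} :
    e ∈ D.rest A B ↔ e ∉ A ∧ e ∉ B := by
  unfold Diagram.rest
  rw [Finset.mem_compl, Finset.mem_union, not_or]

lemma rest_insA {e : D.E} : D.rest (insert e A) B = (D.rest A B).erase e := by
  ext x
  rw [Finset.mem_erase, mem_rest'', mem_rest'', Finset.mem_insert]
  tauto

lemma rest_insB {e : D.E} : D.rest A (insert e B) = (D.rest A B).erase e := by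
  ext x
  rw [Finset.mem_erase, mem_rest'', mem_rest'', Finset.mem_insert]
  tauto

lemma NW_nonneg (hx : ∀ e, 0 ≤ x e) (hy : ∀ e, 0 ≤ y e) : 0 ≤ NW D x y A B := by
  unfold NW
  refine Finset.sum_nonneg fun S _ => Finset.prod_nonneg fun e _ => ?_
  split_ifs
  · exact hx e
  · exact hy e

private lemma trees_split {e : D.E} :
    D.trees A B = D.trees (insert e A) B ∪ D.trees A (insert e B) := by
  ext S
  rw [Finset.mem_union, Diagram.mem_trees, Diagram.mem_trees, Diagram.mem_trees,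
    Finset.disjoint_insert_left, Finset.insert_subset_iff]
  by_cases he : e ∈ S
  · constructor
    · rintro ⟨h1, h2, h3⟩
      exact Or.inr ⟨⟨he, h1⟩, h2, h3⟩
    · rintro (⟨h1, ⟨h2, -⟩, -⟩ | ⟨⟨-, h1⟩, h2, h3⟩)
      · exact absurd he h2
      · exact ⟨h1, h2, h3⟩
  · constructor
    · rintro ⟨h1, h2, h3⟩
      exact Or.inl ⟨h1, ⟨he, h2⟩, h3⟩
    · rintro (⟨h1, ⟨-, h2⟩, h3⟩ | ⟨⟨h1, -⟩, -⟩)
      · exact ⟨h1, h2, h3⟩
      · exact absurd h1 he

/-- deletion and contraction; like `Diagram.N_split`, the factor of `e` is taken out of the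
product -/
lemma NW_split {e : D.E} (hA : e ∉ A) (hB : e ∉ B) :
    NW D x y A B = y e * NW D x y (insert e A) B + x e * NW D x y A (insert e B) := by
  have her : e ∈ D.rest A B := mem_rest''.2 ⟨hA, hB⟩
  unfold NW
  rw [trees_split (e := e), Finset.sum_union, rest_insA, rest_insB, Finset.mul_sum, Finset.mul_sum]
  · congr 1
    · refine Finset.sum_congr rfl fun S hS => ?_
      have h1 := (D.mem_trees.1 hS).2.1
      rw [Finset.disjoint_insert_left] at h1
      rw [← Finset.mul_prod_erase _ _ her, if_neg h1.1]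
    · refine Finset.sum_congr rfl fun S hS => ?_
      have h1 := (D.mem_trees.1 hS).1
      rw [Finset.insert_subset_iff] at h1
      rw [← Finset.mul_prod_erase _ _ her, if_pos h1.1]
  · rw [Finset.disjoint_left]
    intro S h1 h2
    rw [Diagram.mem_trees, Finset.disjoint_insert_left] at h1
    rw [Diagram.mem_trees, Finset.insert_subset_iff] at h2
    exact h1.2.1.1 h2.1.1

private lemma ite_compl (S : Finset D.E) (e : D.E) :
    (if e ∈ S then y e else x e) = if e ∈ Sᶜ then x e else y e := by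
  by_cases he : e ∈ S
  · rw [if_pos he, if_neg (fun h => (Finset.mem_compl.1 h) he)]
  · rw [if_neg he, if_pos (Finset.mem_compl.2 he)]

/-- exchanging the colours (`S` goes to `Sᶜ`, `Diagram.mem_trees_dual`, `rest_dual`) -/
lemma NW_dual : NW D.dual (y : D.E → ℝ) (x : D.E → ℝ) B A = NW D x y A B := by
  have h0 : (D.dual.rest B A : Finset D.E) = D.rest A B := D.rest_dual A B
  have h1 : ∀ S : Finset D.E, S ∈ (D.dual.trees B A : Finset (Finset D.E)) ↔
      Sᶜ ∈ D.trees A B := fun S => D.mem_trees_dual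
  change (∑ S ∈ (D.dual.trees B A : Finset (Finset D.E)),
    ∏ e ∈ (D.dual.rest B A : Finset D.E), if e ∈ S then y e else x e) =
    ∑ S ∈ D.trees A B, ∏ e ∈ D.rest A B, if e ∈ S then x e else y e
  rw [h0]
  generalize (D.dual.trees B A : Finset (Finset D.E)) = T at h1 ⊢
  refine Finset.sum_bij (fun (S : Finset D.E) _ => Sᶜ) ?_ ?_ ?_ ?_
  · intro S hS
    exact (h1 S).1 hS
  · intro S _ S' _ h
    exact compl_injective h
  · intro S hS
    refine ⟨Sᶜ, (h1 Sᶜ).2 ?_, compl_compl S⟩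
    rw [compl_compl]
    exact hS
  · intro S _
    exact Finset.prod_congr rfl fun e _ => ite_compl S e

lemma NW_eq_zero (h : D.N A B = 0) : NW D x y A B = 0 := by
  unfold NW
  unfold Diagram.N at h
  rw [Finset.card_eq_zero] at h
  rw [h, Finset.sum_empty]

/-- from `meets_cut` -/
lemma NW_of_cut {A' : Finset D.E} (c : Comp D.g B)
    (hc : comps D.g B ≠ 1) (hAA : A ⊆ A')
    (h : ∀ e ∈ D.rest A B, ((Quot.mk (Rel D.g B) (D.g e).1 : Comp D.g B) = c
      ↔ ¬ (Quot.mk (Rel D.g B) (D.g e).2 : Comp D.g B) = c) → e ∈ A') :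
    NW D x y A' B = 0 := by
  apply NW_eq_zero
  unfold Diagram.N
  rw [Finset.card_eq_zero, Finset.eq_empty_iff_forall_notMem]
  intro S hS
  obtain ⟨e, he, heS, hx⟩ := meets_cut D hS c hc
  rw [mem_rest''] at he
  exact he.1 (h e (mem_rest''.2 ⟨fun h' => he.1 (hAA h'), he.2⟩) hx)

/-- the only tree is `B` (see `N_le_one` in TDen/Rec) -/
lemma NW_le_prod (hc : comps D.g B = 1) (hy : ∀ e, 0 ≤ y e) :
    NW D x y A B ≤ ∏ e ∈ D.rest A B, y e := by
  have key : ∀ S ∈ D.trees A B, S = B := by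
    intro S hS
    have h1 := D.mem_trees.1 hS
    have h2 := D.card_of_mem hS
    have h3 := card_le_comps_add D.g B
    exact (Finset.eq_of_subset_of_card_le h1.1 (by omega)).symm
  have hprod : ∏ e ∈ D.rest A B, (if e ∈ B then x e else y e) = ∏ e ∈ D.rest A B, y e := by
    refine Finset.prod_congr rfl fun e he => ?_
    rw [if_neg (mem_rest''.1 he).2]
  unfold NW
  by_cases hBt : B ∈ D.trees A B
  · have h1 : D.trees A B = {B} := by
      ext S
      rw [Finset.mem_singleton]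
      exact ⟨key S, fun h => by rw [h]; exact hBt⟩
    rw [h1, Finset.sum_singleton, hprod]
  · have h1 : D.trees A B = ∅ := by
      rw [Finset.eq_empty_iff_forall_notMem]
      intro S hS
      exact hBt (key S hS ▸ hS)
    rw [h1, Finset.sum_empty]
    exact Finset.prod_nonneg fun e _ => hy e

lemma NW_one : NW D (fun _ => 1) (fun _ => 1) A B = (D.N A B : ℝ) := by
  unfold NW Diagram.N
  rw [Finset.sum_congr rfl (g := fun _ => (1 : ℝ)) (fun S _ => by
    refine Finset.prod_eq_one fun e _ => ?_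
    split_ifs <;> rfl)]
  rw [Finset.sum_const, nsmul_eq_mul, mul_one]

end Pool.Agent.Lib.TWt
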