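import Pool.Agent.Lib.TWt.ClsInd
import Pool.Agent.Lib.TDen.NumD

/-!
# The numerical facts for the classes
-/

set_option autoImplicit false

namespace Pool.Agent.Lib.TWt

open Real Pool.Agent.Lib.MP_20e20b_gt Pool.Agent.Lib.TDen

private lemma cls_grow (n : ℕ) :
    ((n : ℝ) + 2) + 2 ≤ 3657 / 2000 * (5800 / 3657 : ℝ) ^ (n + 2) := by
  induction n with
  | zero => norm_num
  | succ n ih =>
    have h0 : (0 : ℝ) ≤ n := Nat.cast_nonneg n
    have e : 3657 / 2000 * (5800 / 3657 : ℝ) ^ (n + 1 + 2) =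
        3657 / 2000 * (5800 / 3657 : ℝ) ^ (n + 2) * (5800 / 3657) := by
      rw [show n + 1 + 2 = n + 2 + 1 by ring, pow_succ]
      ring
    rw [e]
    push_cast
    nlinarith

/-- the growth factor of a class of `n + 1` crossings -/
lemma cls_G (n : ℕ) : Kdd (1 + (n : ℝ)) 1 (3657 / 2000 * (5800 / 3657 : ℝ) ^ n) ∧
    Kdd 1 (1 + (n : ℝ)) (3657 / 2000 * (5800 / 3657 : ℝ) ^ n) := by
  rcases n with _ | _ | n
  · constructor
    · exact Or.inl (Or.inl ⟨by norm_num, rfl, by norm_num⟩)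
    · exact Or.inl (Or.inl ⟨rfl, by norm_num, by norm_num⟩)
  · constructor
    · exact Or.inl (Or.inr (Or.inl ⟨by norm_num, rfl, by norm_num⟩))
    · exact Or.inl (Or.inr (Or.inr ⟨rfl, by norm_num, by norm_num⟩))
  · have h := cls_grow n
    have h0 : (0 : ℝ) ≤ n := Nat.cast_nonneg n
    constructor
    · refine Or.inr ⟨by positivity, one_pos, ?_⟩
      push_cast
      linarith
    · refine Or.inr ⟨one_pos, by positivity, ?_⟩
      push_cast
      linarith

/-- `(5800/3657)^3 ≤ 2^2` -/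
private lemma log_cls : Real.log (5800 / 3657) ≤ 0.4621 := by
  have h1 : ((5800 / 3657 : ℝ)) ^ 3 ≤ 2 ^ 2 := by norm_num
  have h2 : Real.log ((5800 / 3657 : ℝ) ^ 3) ≤ Real.log (2 ^ 2) :=
    Real.log_le_log (by positivity) h1
  rw [Real.log_pow, Real.log_pow] at h2
  push_cast at h2
  have h3 := Real.log_two_lt_d9
  norm_num at h2 h3 ⊢
  linarith

/-- `log 1.8285 ≤ 0.60352`, `log (5800/3657) ≤ 0.4621`,
`2 π (0.60352 t + 0.4621 (N - t)) ≤ 3.6637 N` for `20 t ≤ 17 N` -/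
lemma cls_num {N t : ℕ} (h1 : 1 ≤ N) (h2 : 20 * t ≤ 17 * N) {s : ℝ}
    (hs : 0 < s) (h : s ≤ (3657 / 2000 : ℝ) ^ t * (5800 / 3657) ^ (N - t)) :
    2 * π * Real.log s / N ≤ vOct := by
  have hN1 : (1 : ℝ) ≤ N := by exact_mod_cast h1
  have hN : (0 : ℝ) < N := by linarith
  have htN : t ≤ N := by omega
  have hv := vOct_gt'
  have hπ := Real.pi_lt_d6
  have hπ0 := Real.pi_pos
  rw [div_le_iff₀ hN]
  have hlog : Real.log s ≤ t * Real.log (3657 / 2000) + ((N : ℝ) - t) * Real.log (5800 / 3657) := by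
    have h3 := Real.log_le_log hs h
    rw [Real.log_mul (by positivity) (by positivity), Real.log_pow, Real.log_pow,
      Nat.cast_sub htN] at h3
    exact h3
  have ht0 : (0 : ℝ) ≤ t := Nat.cast_nonneg t
  have htR : (t : ℝ) ≤ N := by exact_mod_cast htN
  have h2R : 20 * (t : ℝ) ≤ 17 * N := by exact_mod_cast h2
  have a1 : (t : ℝ) * Real.log (3657 / 2000) ≤ t * 0.60352 :=
    mul_le_mul_of_nonneg_left log_delta_le ht0
  have a2 : ((N : ℝ) - t) * Real.log (5800 / 3657) ≤ (N - t) * 0.4621 :=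
    mul_le_mul_of_nonneg_left log_cls (by linarith)
  have h7 : Real.log s ≤ 0.582307 * N := by
    norm_num at a1 a2 ⊢
    linarith
  have h8 : 2 * π * Real.log s ≤ 2 * π * (0.582307 * N) :=
    mul_le_mul_of_nonneg_left h7 (by positivity)
  have h9 : 2 * π * (0.582307 * (N : ℝ)) ≤ 6.283186 * (0.582307 * N) :=
    mul_le_mul_of_nonneg_right (by linarith) (by positivity)
  have h11 : (3.6637 : ℝ) * N ≤ vOct * N := mul_le_mul_of_nonneg_right hv.le hN.le
  norm_num at h8 h9 h11 ⊢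
  linarith

end Pool.Agent.Lib.TWt
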