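import Pool.Agent.Lib.TWt.ClsZ
import Pool.Agent.Lib.TWt.ClsNum
import Pool.Agent.Lib.TDen.Fin

/-!
# Diagrams with few twist classes: the bound
-/

set_option autoImplicit false

namespace Pool.Agent.Lib.TWt

open Real Pool.Agent.Lib.MP_20e20b_gt Pool.Agent.Lib.TDen

/-- PROOF: `r` = right inverse of `τ`, `P i` = all of class `i` parallel in `g`,
`Z` = all `f ≠ r (τ f)`; `cls_ind`, `NW_led` with `G e = 3657/2000 * (5800/3657)^(n_i)` at the
representatives, `n_i` = number of elements of `Z` in the class `i`, `D.coefSum_bracket`. -/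
theorem coefSum_cls (D : Diagram) {t : ℕ} (τ : D.E → Fin t) (hτ : Function.Surjective τ)
    (hp : ∀ i, (∀ e f, τ e = i → τ f = i → Par D.g e f) ∨
      (∀ e f, τ e = i → τ f = i → Par D.h e f)) :
    (coefSum D.bracket : ℝ) ≤ (3657 / 2000 : ℝ) ^ t * (5800 / 3657) ^ (D.crossings - t) := by
  classical
  obtain ⟨r, hr⟩ := hτ.hasRightInverse
  have hr' : ∀ i, τ (r i) = i := hr
  set Z : Finset D.E := Finset.univ.filter fun f => f ≠ r (τ f) with hZ
  obtain ⟨x, y, A, B, hd, hAB, hx1, hx2, hx3, hN⟩ := cls_ind D τ r hr'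
    (fun i => ∀ e f, τ e = i → τ f = i → Par D.g e f)
    (fun i h => h)
    (fun i h => (hp i).resolve_left h)
    Z (fun f hf => (Finset.mem_filter.1 hf).2)
  set n : Fin t → ℕ := fun i => (Z.filter fun e => τ e = i).card with hn
  set G : D.E → ℝ := fun e => if e = r (τ e) then
    3657 / 2000 * (5800 / 3657 : ℝ) ^ (n (τ e)) else 3657 / 2000 with hG
  have hK : ∀ e, Kdd (x e) (y e) (G e) := by
    intro e
    by_cases he : e = r (τ e)
    · simp only [hG, if_pos he]
      by_cases hPi : ∀ e' f, τ e' = τ e → τ f = τ e → Par D.g e' f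
      · obtain ⟨h1, h2⟩ := hx1 (τ e) hPi
        rw [← he] at h1 h2
        rw [h1, h2]
        exact (cls_G _).1
      · obtain ⟨h1, h2⟩ := hx2 (τ e) hPi
        rw [← he] at h1 h2
        rw [h1, h2]
        exact (cls_G _).2
    · simp only [hG, if_neg he]
      obtain ⟨h1, h2⟩ := hx3 e he
      rw [h1, h2]
      exact Or.inl (Or.inl ⟨rfl, rfl, rfl⟩)
  have hle := NW_led D hK A B hd
  have hinj : Function.Injective r := fun i j h => by
    rw [← hr' i, ← hr' j, h]
  have hrest : D.rest A B = Finset.univ.image r := by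
    unfold Diagram.rest
    rw [hAB, hZ]
    ext e
    simp only [Finset.mem_compl, Finset.mem_filter, Finset.mem_univ, true_and, not_not,
      Finset.mem_image]
    constructor
    · intro h
      exact ⟨τ e, h.symm⟩
    · rintro ⟨i, rfl⟩
      rw [hr']
  have hZcard : Z.card = D.crossings - t := by
    have h1 : (Zᶜ : Finset D.E).card = t := by
      have h2 : (Zᶜ : Finset D.E) = Finset.univ.image r := by
        rw [← hrest]
        unfold Diagram.rest
        rw [hAB]
      rw [h2, Finset.card_image_of_injective _ hinj, Finset.card_univ, Fintype.card_fin]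
    have h3 := Finset.card_add_card_compl Z
    unfold Diagram.crossings
    omega
  have hsum : ∑ i : Fin t, n i = Z.card :=
    (Finset.card_eq_sum_card_fiberwise (f := τ) (t := Finset.univ)
      (fun _ _ => Finset.mem_coe.2 (Finset.mem_univ _))).symm
  have hprod : ∏ e ∈ D.rest A B, G e
      = (3657 / 2000 : ℝ) ^ t * (5800 / 3657) ^ (D.crossings - t) := by
    rw [hrest, Finset.prod_image fun i _ j _ h => hinj h]
    have h1 : ∀ i : Fin t, G (r i) = 3657 / 2000 * (5800 / 3657 : ℝ) ^ (n i) := by
      intro i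
      simp only [hG, hr', if_true]
    rw [Finset.prod_congr rfl fun i _ => h1 i, Finset.prod_mul_distrib, Finset.prod_const,
      Finset.card_univ, Fintype.card_fin, Finset.prod_pow_eq_pow_sum, hsum, hZcard]
  have hc : (coefSum D.bracket : ℝ) ≤ (D.N ∅ ∅ : ℝ) := by exact_mod_cast D.coefSum_bracket
  rw [hN] at hc
  rw [← hprod]
  exact hc.trans hle

theorem density_cls (D : Diagram) (h1 : 1 ≤ D.crossings) {t : ℕ} (τ : D.E → Fin t)
    (hτ : Function.Surjective τ)
    (hp : ∀ i, (∀ e f, τ e = i → τ f = i → Par D.g e f) ∨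
      (∀ e f, τ e = i → τ f = i → Par D.h e f)) (ht : 20 * t ≤ 17 * D.crossings) :
    2 * π * Real.log D.mu / D.crossings ≤ vOct := by
  rcases (mu_nonneg D).eq_or_lt with h | h
  · rw [← h, Real.log_zero, mul_zero, zero_div]
    have := vOct_gt
    linarith
  · exact cls_num h1 ht h ((mu_le_coefSum D).trans (coefSum_cls D τ hτ hp))

end Pool.Agent.Lib.TWt
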