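import Pool.Agent.Lib.TWt.Ind

/-!
# The bound for weighted trees, with the trivial splitting for heavy edges
-/

set_option autoImplicit false

namespace Pool.Agent.Lib.TWt

open Real Pool.Agent.Lib.TDen

/-- the three kinds of weights, or `x + y ≤ G` -/
def Kdd (x y G : ℝ) : Prop := Kd x y G ∨ (0 < x ∧ 0 < y ∧ x + y ≤ G)

private lemma Kdd.pos {x y G : ℝ} (h : Kdd x y G) : 0 < G := by
  rcases h with h | ⟨h1, h2, h3⟩
  · exact h.pos.2.2.1
  · linarith

private lemma mem_rest_led {D : Diagram} {A B : Finset D.E} {e : D.E} :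
    e ∈ D.rest A B ↔ e ∉ A ∧ e ∉ B := by
  unfold Diagram.rest
  rw [Finset.mem_compl, Finset.mem_union, not_or]

open Classical in
/-- the case where all edges of the rest are of the three kinds -/
private lemma NW_led_base (D : Diagram) {x y G : D.E → ℝ} (A B : Finset D.E)
    (hd : Disjoint A B) (hK : ∀ e ∈ D.rest A B, Kd (x e) (y e) (G e)) :
    NW D x y A B ≤ ∏ e ∈ D.rest A B, G e := by
  set x' : D.E → ℝ := fun e => if e ∈ D.rest A B then x e else 1 with hx'
  set y' : D.E → ℝ := fun e => if e ∈ D.rest A B then y e else 1 with hy'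
  set G' : D.E → ℝ := fun e => if e ∈ D.rest A B then G e else 3657 / 2000 with hG'
  have hK' : ∀ e, Kd (x' e) (y' e) (G' e) := by
    intro e
    by_cases he : e ∈ D.rest A B
    · simp only [hx', hy', hG', if_pos he]
      exact hK e he
    · simp only [hx', hy', hG', if_neg he]
      exact Or.inl ⟨rfl, rfl, rfl⟩
  have h1 := NW_le D hK' A B hd
  have h2 : NW D x' y' A B = NW D x y A B := by
    unfold NW
    refine Finset.sum_congr rfl fun S _ => Finset.prod_congr rfl fun e he => ?_
    simp only [hx', hy', if_pos he]
  have h3 : ∏ e ∈ D.rest A B, G' e = ∏ e ∈ D.rest A B, G e :=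
    Finset.prod_congr rfl fun e he => by simp only [hG', if_pos he]
  rw [h2, h3] at h1
  exact h1

/-- PROOF: induction on the number of elements of the rest. If all edges of the rest
are of the three kinds, `NW_le` for the weights changed outside of the rest (to
`1, 1, 3657/2000`; `NW` and the product depend only on the values in the rest). Otherwise
`NW_split` for such an `e`: both terms are at most the product over `(D.rest A B).erase e`, and
`x e + y e ≤ G e`. -/
theorem NW_led (D : Diagram) {x y G : D.E → ℝ} (hK : ∀ e, Kdd (x e) (y e) (G e))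
    (A B : Finset D.E) (hd : Disjoint A B) :
    NW D x y A B ≤ ∏ e ∈ D.rest A B, G e := by
  obtain ⟨n, hn⟩ : ∃ n, (D.rest A B).card = n := ⟨_, rfl⟩
  induction n using Nat.strong_induction_on generalizing A B with
  | _ n ih =>
    by_cases hall : ∀ e ∈ D.rest A B, Kd (x e) (y e) (G e)
    · exact NW_led_base D A B hd hall
    · push Not at hall
      obtain ⟨e, he, hne⟩ := hall
      obtain ⟨hx, hy, hxy⟩ := (hK e).resolve_left hne
      have heAB := mem_rest_led.1 he
      have hlt : ((D.rest A B).erase e).card < n := by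
        rw [← hn]
        exact Finset.card_erase_lt_of_mem he
      have hA := ih _ hlt (insert e A) B
        (Finset.disjoint_insert_left.2 ⟨heAB.2, hd⟩) (by rw [rest_insA])
      have hB := ih _ hlt A (insert e B)
        (Finset.disjoint_insert_right.2 ⟨heAB.1, hd⟩) (by rw [rest_insB])
      rw [rest_insA] at hA
      rw [rest_insB] at hB
      rw [NW_split heAB.1 heAB.2, ← Finset.mul_prod_erase _ _ he]
      have hP : 0 ≤ ∏ e ∈ (D.rest A B).erase e, G e :=
        Finset.prod_nonneg fun f _ => (hK f).pos.le
      calc y e * NW D x y (insert e A) B + x e * NW D x y A (insert e B)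
          ≤ y e * ∏ e ∈ (D.rest A B).erase e, G e + x e * ∏ e ∈ (D.rest A B).erase e, G e :=
            add_le_add (mul_le_mul_of_nonneg_left hA hy.le) (mul_le_mul_of_nonneg_left hB hx.le)
        _ = (x e + y e) * ∏ e ∈ (D.rest A B).erase e, G e := by ring
        _ ≤ G e * ∏ e ∈ (D.rest A B).erase e, G e := mul_le_mul_of_nonneg_right hxy hP

end Pool.Agent.Lib.TWt
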