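import Pool.Agent.Lib.TWt.Pair

/-!
# Classes of parallel edges: merging one more edge
-/

set_option autoImplicit false

namespace Pool.Agent.Lib.TWt

open Pool.Agent.Lib.TDen

section

variable {D : Diagram} {x y : D.E → ℝ} {A B : Finset D.E} {e f : D.E}

private lemma NW_congr' {x' y' : D.E → ℝ} {A' B' : Finset D.E}
    (hx : ∀ k ∈ D.rest A' B', x' k = x k) (hy : ∀ k ∈ D.rest A' B', y' k = y k) :
    NW D x' y' A' B' = NW D x y A' B' := by
  unfold NW
  refine Finset.sum_congr rfl fun S _ => Finset.prod_congr rfl fun k hk => ?_
  rw [hx k hk, hy k hk]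

/-- As `NW_par`, but `x e` arbitrary: the trees with `e` and without `f` are as many as
those with `f` and without `e` -/
theorem NW_par' (hef : e ≠ f) (he : e ∈ D.rest A B) (hf : f ∈ D.rest A B) (hp : Par D.g e f)
    (hye : y e = 1) (hxf : x f = 1) (hyf : y f = 1) :
    NW D x y A B = NW D (Function.update x e (x e + 1)) y (insert f A) B := by
  have hsw := par_swap (x := x) (y := y) hef he hf hp
  have he' := mem_rest.1 he
  have hf' := mem_rest.1 hf
  have h1 : e ∉ insert f A := by
    rw [Finset.mem_insert, not_or]
    exact ⟨hef, he'.1⟩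
  have h2 : e ∉ insert f B := by
    rw [Finset.mem_insert, not_or]
    exact ⟨hef, he'.2⟩
  have hz : NW D x y A (insert e (insert f B)) = 0 := by
    unfold NW
    have : D.trees A (insert e (insert f B)) = ∅ := by
      rw [Finset.eq_empty_iff_forall_notMem]
      intro S hS
      refine par_no_tree hef hp hS ?_
      rw [D.mem_trees] at hS
      exact ⟨hS.1 (Finset.mem_insert_self _ _),
        hS.1 (Finset.mem_insert_of_mem (Finset.mem_insert_self _ _))⟩
    rw [this, Finset.sum_empty]
  have c1 : NW D (Function.update x e (x e + 1)) y (insert e (insert f A)) B =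
      NW D x y (insert e (insert f A)) B := by
    refine NW_congr' (fun k hk => ?_) (fun k _ => rfl)
    rw [mem_rest, Finset.mem_insert] at hk
    exact Function.update_of_ne (fun h => hk.1 (Or.inl h)) _ _
  have c2 : NW D (Function.update x e (x e + 1)) y (insert f A) (insert e B) =
      NW D x y (insert f A) (insert e B) := by
    refine NW_congr' (fun k hk => ?_) (fun k _ => rfl)
    rw [mem_rest, Finset.mem_insert (a := k) (b := e)] at hk
    exact Function.update_of_ne (fun h => hk.2 (Or.inl h)) _ _
  rw [NW_split (x := x) (y := y) hf'.1 hf'.2, hxf, hyf,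
    NW_split (x := x) (y := y) (A := A) he'.1 h2, hz,
    NW_split (x := x) (y := y) (B := B) h1 he'.2,
    NW_split (x := Function.update x e (x e + 1)) (y := y) (B := B) h1 he'.2,
    c1, c2, Function.update_self, hye, hsw]
  ring

/-- the same for the other colour -/
theorem NW_par_dual' (hef : e ≠ f) (he : e ∈ D.rest A B) (hf : f ∈ D.rest A B)
    (hp : Par D.h e f) (hxe : x e = 1) (hxf : x f = 1) (hyf : y f = 1) :
    NW D x y A B = NW D x (Function.update y e (y e + 1)) A (insert f B) := by
  have he' : e ∈ D.dual.rest B A := by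
    rw [D.rest_dual]
    exact he
  have hf' : f ∈ D.dual.rest B A := by
    rw [D.rest_dual]
    exact hf
  have h1 := NW_par' (D := D.dual) (x := y) (y := x) (A := B) (B := A) hef he' hf' hp hxe
    hyf hxf
  rw [← NW_dual (D := D) (x := x) (y := y) (A := A) (B := B), h1]
  exact NW_dual (D := D) (x := x) (y := Function.update y e (y e + 1)) (A := A)
    (B := insert f B)

end

end Pool.Agent.Lib.TWt
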