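import Pool.Agent.Lib.TWt.ClsPar

/-!
# Merging the classes
-/

set_option autoImplicit false

namespace Pool.Agent.Lib.TWt

open Real Pool.Agent.Lib.MP_20e20b_gt Pool.Agent.Lib.TDen

theorem cls_ind (D : Diagram) {t : ℕ} (τ : D.E → Fin t) (r : Fin t → D.E)
    (hr : ∀ i, τ (r i) = i) (P : Fin t → Prop)
    (hP : ∀ i, P i → ∀ e f, τ e = i → τ f = i → Par D.g e f)
    (hP' : ∀ i, ¬ P i → ∀ e f, τ e = i → τ f = i → Par D.h e f)
    (Z : Finset D.E) (hZ : ∀ f ∈ Z, f ≠ r (τ f)) :
    ∃ (x y : D.E → ℝ) (A B : Finset D.E), Disjoint A B ∧ A ∪ B = Z ∧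
      (∀ i, P i → x (r i) = 1 + ((Z.filter fun e => τ e = i).card : ℝ) ∧ y (r i) = 1) ∧
      (∀ i, ¬ P i → x (r i) = 1 ∧ y (r i) = 1 + ((Z.filter fun e => τ e = i).card : ℝ)) ∧
      (∀ e, e ≠ r (τ e) → x e = 1 ∧ y e = 1) ∧ (D.N ∅ ∅ : ℝ) = NW D x y A B := by
  induction Z using Finset.induction_on with
  | empty =>
    refine ⟨fun _ => 1, fun _ => 1, ∅, ∅, Finset.disjoint_empty_left _, by simp, ?_, ?_, ?_, ?_⟩
    · intro i _; simp
    · intro i _; simp
    · intro e _; simp
    · rw [NW_one]
  | insert f Z hf ih =>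
    obtain ⟨x, y, A, B, hd, hAB, h1, h2, h3, h4⟩ := ih fun e he => hZ e (Finset.mem_insert_of_mem he)
    have hfr : f ≠ r (τ f) := hZ f (Finset.mem_insert_self f Z)
    have hrZ : r (τ f) ∉ Z := fun h => hZ _ (Finset.mem_insert_of_mem h) (by rw [hr])
    have hfA : f ∉ A := fun h => hf (hAB ▸ Finset.mem_union_left B h)
    have hfB : f ∉ B := fun h => hf (hAB ▸ Finset.mem_union_right A h)
    have hfR : f ∈ D.rest A B := TDen.mem_rest.2 ⟨hfA, hfB⟩
    have hrR : r (τ f) ∈ D.rest A B := by
      rw [TDen.mem_rest]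
      exact ⟨fun h => hrZ (hAB ▸ Finset.mem_union_left B h),
        fun h => hrZ (hAB ▸ Finset.mem_union_right A h)⟩
    have hrj : ∀ j, j ≠ τ f → r j ≠ r (τ f) := by
      intro j hj h
      apply hj
      rw [← hr j, h, hr]
    have hcount : ∀ j, j ≠ τ f →
        ((insert f Z).filter fun e => τ e = j) = (Z.filter fun e => τ e = j) := by
      intro j hj
      rw [Finset.filter_insert, if_neg (fun h => hj h.symm)]
    have hcount' : (((insert f Z).filter fun e => τ e = τ f).card : ℝ) =
        ((Z.filter fun e => τ e = τ f).card : ℝ) + 1 := by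
      rw [Finset.filter_insert, if_pos rfl, Finset.card_insert_of_notMem]
      · push_cast; rfl
      · exact fun h => hf (Finset.mem_filter.1 h).1
    have hne : ∀ e, e ≠ r (τ e) → e ≠ r (τ f) := by
      intro e he h
      apply he
      rw [h, hr]
    by_cases hPi : P (τ f)
    · refine ⟨Function.update x (r (τ f)) (x (r (τ f)) + 1), y, insert f A, B, ?_, ?_, ?_, ?_, ?_,
        ?_⟩
      · rw [Finset.disjoint_insert_left]
        exact ⟨hfB, hd⟩
      · rw [Finset.insert_union, hAB]
      · intro j hj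
        by_cases hji : j = τ f
        · subst hji
          rw [Function.update_self, (h1 _ hj).1, (h1 _ hj).2, hcount']
          exact ⟨by ring, rfl⟩
        · rw [Function.update_of_ne (hrj j hji), hcount j hji]
          exact h1 j hj
      · intro j hj
        have hji : j ≠ τ f := fun h => hj (h ▸ hPi)
        rw [Function.update_of_ne (hrj j hji), hcount j hji]
        exact h2 j hj
      · intro e he
        rw [Function.update_of_ne (hne e he)]
        exact h3 e he
      · rw [h4]
        exact NW_par' hfr.symm hrR hfR (hP _ hPi _ _ (hr _) rfl) (h1 _ hPi).2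
          (h3 f hfr).1 (h3 f hfr).2
    · refine ⟨x, Function.update y (r (τ f)) (y (r (τ f)) + 1), A, insert f B, ?_, ?_, ?_, ?_, ?_,
        ?_⟩
      · rw [Finset.disjoint_insert_right]
        exact ⟨hfA, hd⟩
      · rw [Finset.union_insert, hAB]
      · intro j hj
        have hji : j ≠ τ f := fun h => hPi (h ▸ hj)
        rw [Function.update_of_ne (hrj j hji), hcount j hji]
        exact h1 j hj
      · intro j hj
        by_cases hji : j = τ f
        · subst hji
          rw [Function.update_self, (h2 _ hj).1, (h2 _ hj).2, hcount']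
          exact ⟨rfl, by ring⟩
        · rw [Function.update_of_ne (hrj j hji), hcount j hji]
          exact h2 j hj
      · intro e he
        rw [Function.update_of_ne (hne e he)]
        exact h3 e he
      · rw [h4]
        exact NW_par_dual' hfr.symm hrR hfR (hP' _ hPi _ _ (hr _) rfl) (h2 _ hPi).1
          (h3 f hfr).1 (h3 f hfr).2

end Pool.Agent.Lib.TWt
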