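import Pool.Agent.Lib.TDen.Rec

/-!
# Weighted trees of a diagram
-/

set_option autoImplicit false

namespace Pool.Agent.Lib.TWt

open Pool.Agent.Lib.TDen

/-- the weighted number of the trees that contain `B` and avoid `A`: an edge of the rest counts
`x e` if it lies in the tree and `y e` otherwise -/
noncomputable def NW (D : Diagram) (x y : D.E → ℝ) (A B : Finset D.E) : ℝ :=
  ∑ S ∈ D.trees A B, ∏ e ∈ D.rest A B, if e ∈ S then x e else y e

open Classical in
/-- the weighted number of the spanning forests in `S` rooted at `U` -/
noncomputable def WF {V E : Type} [Fintype V] (g : E → V × V) (x y : E → ℝ) (S : Finset E)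
    (U : Finset V) : ℝ :=
  ∑ S' ∈ forests g S U, ∏ e ∈ S, if e ∈ S' then x e else y e

/-- the three kinds of weights (with the growth factor `G`): a single crossing, and a pair of
parallel crossings replaced by one of them, in the graph of shaded or of unshaded regions -/
def Kd (x y G : ℝ) : Prop :=
  (x = 1 ∧ y = 1 ∧ G = 3657 / 2000) ∨ (x = 2 ∧ y = 1 ∧ G = 29 / 10) ∨
    (x = 1 ∧ y = 2 ∧ G = 29 / 10)

/-- two edges with the same ends -/
def Par {V E : Type} (g : E → V × V) (e f : E) : Prop := g e = g f ∨ g e = (g f).swap

end Pool.Agent.Lib.TWt
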