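import Pool.Agent.Lib.TDen.NumD

/-!
# The numerical facts for the density
-/

set_option autoImplicit false

namespace Pool.Agent.Lib.TWt

open Real Pool.Agent.Lib.MP_20e20b_gt Pool.Agent.Lib.TDen

/-- e.g. `log 2.9 = log 2 + log 1.45`, or a power comparison with `2` as in `log_twentyfive` -/
lemma log_29 : Real.log (29 / 10) ≤ 1.06472 := by
  have h1 : ((29 / 10 : ℝ)) ^ 28 ≤ 2 ^ 43 * 1.0066 := by norm_num
  have h2 : Real.log ((29 / 10 : ℝ) ^ 28) ≤ Real.log (2 ^ 43 * 1.0066) :=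
    Real.log_le_log (by positivity) h1
  rw [Real.log_mul (by positivity) (by norm_num), Real.log_pow, Real.log_pow] at h2
  push_cast at h2
  have h3 := Real.log_two_lt_d9
  have h4 : Real.log (1.0066 : ℝ) ≤ 1.0066 - 1 := Real.log_le_sub_one_of_pos (by norm_num)
  norm_num at h2 h3 h4 ⊢
  linarith

/-- `2 π (0.60352 (N - 2 b) + 1.06472 b) ≤ 3.6637 N` for `3 N ≤ 20 b`, with `log_delta_le` and
`vOct_gt'` of TDen/NumA, NumD -/
lemma num_pairs {N b : ℕ} (h1 : 1 ≤ N) (h2 : 3 * N ≤ 20 * b) (h3 : 2 * b ≤ N) {s : ℝ}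
    (hs : 0 < s) (h : s ≤ (3657 / 2000 : ℝ) ^ (N - 2 * b) * (29 / 10) ^ b) :
    2 * π * Real.log s / N ≤ vOct := by
  have hN : (0 : ℝ) < N := by exact_mod_cast h1
  have e1 : Real.log s ≤ (N - 2 * b : ℝ) * Real.log (3657 / 2000) + b * Real.log (29 / 10) := by
    have e2 := Real.log_le_log hs h
    rw [Real.log_mul (by positivity) (by positivity), Real.log_pow, Real.log_pow,
      Nat.cast_sub h3] at e2
    push_cast at e2
    exact e2
  have e3 := log_delta_le
  have e4 := log_29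
  have e5 : (0 : ℝ) ≤ (N : ℝ) - 2 * b := by
    have : ((2 * b : ℕ) : ℝ) ≤ N := by exact_mod_cast h3
    push_cast at this
    linarith
  have e6 : (3 : ℝ) * N ≤ 20 * b := by exact_mod_cast h2
  have e7 : (0 : ℝ) ≤ (b : ℝ) := Nat.cast_nonneg b
  have e8 : Real.log s ≤ 0.5825 * N := by nlinarith
  have e9 := vOct_gt'
  have e10 := Real.pi_lt_d4
  have e11 := Real.pi_pos
  rw [div_le_iff₀ hN]
  have e12 : 2 * π * Real.log s ≤ 2 * π * (0.5825 * N) :=
    mul_le_mul_of_nonneg_left e8 (by positivity)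
  have e13 : 2 * π * (0.5825 * N) ≤ 2 * 3.1416 * (0.5825 * N) :=
    mul_le_mul_of_nonneg_right (by linarith) (by positivity)
  nlinarith

end Pool.Agent.Lib.TWt
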