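import Pool.Agent.Lib.TWt.Basic

/-!
# Pairs of parallel edges
-/

set_option autoImplicit false

namespace Pool.Agent.Lib.TWt

open Pool.Agent.Lib.TDen

variable {D : Diagram} {x y : D.E → ℝ} {A B : Finset D.E} {e f : D.E}

private lemma par_symm {V E : Type} {g : E → V × V} {e f : E} (h : Par g e f) : Par g f e := by
  rcases h with h | h
  · exact Or.inl h.symm
  · refine Or.inr ?_
    rw [h, Prod.swap_swap]

private lemma par_conn {V E : Type} {g : E → V × V} {S : Finset E} {e f : E} (h : Par g e f)
    (he : e ∈ S) : Conn g S (g f).1 (g f).2 := by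
  have h1 : Conn g S (g e).1 (g e).2 := Conn.edge he
  rcases h with h | h
  · rw [h] at h1
    exact h1
  · rw [h] at h1
    exact h1.symm

/-- no tree contains two parallel edges. PROOF: `comps g (S.erase f) = comps g S = 1`
(`comps_insert_of_conn`) and `card_le_comps_add`, `card_of_mem`. -/
lemma par_no_tree (hef : e ≠ f) (hp : Par D.g e f) {S : Finset D.E} (hS : S ∈ D.trees A B) :
    ¬ (e ∈ S ∧ f ∈ S) := by
  rintro ⟨he, hf⟩
  have h1 := D.card_of_mem hS
  rw [D.mem_trees] at hS
  have he' : e ∈ S.erase f := Finset.mem_erase.2 ⟨hef, he⟩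
  have h2 := comps_insert_of_conn D.g (par_conn hp he')
  rw [Finset.insert_erase hf, hS.2.2.1] at h2
  have h3 := card_le_comps_add D.g (S.erase f)
  have h4 := Finset.card_erase_of_mem hf
  have h5 : 0 < S.card := Finset.card_pos.2 ⟨f, hf⟩
  omega

private lemma swap_mem (hef : e ≠ f) (he : e ∈ D.rest A B) (hf : f ∈ D.rest A B)
    (hp : Par D.g e f) {S : Finset D.E} (hS : S ∈ D.trees (insert f A) (insert e B)) :
    insert f (S.erase e) ∈ D.trees (insert e A) (insert f B) := by
  rw [mem_trees_iff] at hS ⊢
  rw [mem_rest] at he hf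
  obtain ⟨h1, h2, h3, h4⟩ := hS
  rw [Finset.insert_subset_iff] at h1
  rw [Finset.disjoint_insert_left] at h2
  refine ⟨?_, ?_, ?_, ?_⟩
  · intro k hk
    rw [Finset.mem_insert] at hk ⊢
    rcases hk with hk | hk
    · exact Or.inl hk
    · refine Or.inr (Finset.mem_erase.2 ⟨?_, h1.2 hk⟩)
      rintro rfl
      exact he.2 hk
  · rw [Finset.disjoint_left]
    intro k hk hk'
    rw [Finset.mem_insert] at hk hk'
    rcases hk with rfl | hk
    · rcases hk' with hk' | hk'
      · exact hef hk'
      · exact (Finset.mem_erase.1 hk').1 rfl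
    · rcases hk' with rfl | hk'
      · exact hf.1 hk
      · exact (Finset.disjoint_left.1 h2.2 hk) (Finset.mem_erase.1 hk').2
  · have hf' : f ∉ S.erase e := fun h => h2.1 (Finset.mem_erase.1 h).2
    rw [Finset.card_insert_of_notMem hf', Finset.card_erase_of_mem h1.1]
    have h5 : 0 < S.card := Finset.card_pos.2 ⟨e, h1.1⟩
    omega
  · intro u v
    refine (h4 u v).rec_on (Conn D.g (insert f (S.erase e)))
      ⟨Conn.refl D.g _, Conn.symm, Conn.trans⟩ ?_
    intro k hk
    by_cases hke : k = e
    · rw [hke]
      exact par_conn (par_symm hp) (Finset.mem_insert_self _ _)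
    · exact Conn.edge (Finset.mem_insert_of_mem (Finset.mem_erase.2 ⟨hke, hk⟩))

/-- exchanging `e` and `f` (`S ↦ insert f (S.erase e)`, `mem_trees_iff`) -/
lemma par_swap (hef : e ≠ f) (he : e ∈ D.rest A B) (hf : f ∈ D.rest A B) (hp : Par D.g e f) :
    NW D x y (insert f A) (insert e B) = NW D x y (insert e A) (insert f B) := by
  unfold NW
  have hr : D.rest (insert f A) (insert e B) = D.rest (insert e A) (insert f B) := by
    ext k
    rw [mem_rest, mem_rest, Finset.mem_insert, Finset.mem_insert, Finset.mem_insert,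
      Finset.mem_insert]
    tauto
  rw [hr]
  refine Finset.sum_nbij' (fun S => insert f (S.erase e)) (fun S => insert e (S.erase f))
    ?_ ?_ ?_ ?_ ?_
  · intro S hS
    exact swap_mem hef he hf hp hS
  · intro S hS
    exact swap_mem hef.symm hf he (par_symm hp) hS
  · intro S hS
    rw [D.mem_trees, Finset.insert_subset_iff, Finset.disjoint_insert_left] at hS
    obtain ⟨h1, h2, -⟩ := hS
    have hf' : f ∉ S.erase e := fun h => h2.1 (Finset.mem_erase.1 h).2
    rw [Finset.erase_insert hf', Finset.insert_erase h1.1]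
  · intro S hS
    rw [D.mem_trees, Finset.insert_subset_iff, Finset.disjoint_insert_left] at hS
    obtain ⟨h1, h2, -⟩ := hS
    have he' : e ∉ S.erase f := fun h => h2.1 (Finset.mem_erase.1 h).2
    rw [Finset.erase_insert he', Finset.insert_erase h1.1]
  · intro S hS
    refine Finset.prod_congr rfl fun k hk => ?_
    rw [mem_rest, Finset.mem_insert, Finset.mem_insert] at hk
    have h1 : k ≠ e := fun h => hk.1 (Or.inl h)
    have h2 : k ≠ f := fun h => hk.2 (Or.inl h)
    have h3 : (k ∈ S) ↔ k ∈ insert f (S.erase e) := by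
      rw [Finset.mem_insert, Finset.mem_erase]
      tauto
    by_cases h4 : k ∈ S
    · rw [if_pos h4, if_pos (h3.1 h4)]
    · rw [if_neg h4, if_neg (fun h => h4 (h3.2 h))]

private lemma NW_congr {x' y' : D.E → ℝ} {A' B' : Finset D.E}
    (hx : ∀ k ∈ D.rest A' B', x' k = x k) (hy : ∀ k ∈ D.rest A' B', y' k = y k) :
    NW D x' y' A' B' = NW D x y A' B' := by
  unfold NW
  refine Finset.sum_congr rfl fun S _ => Finset.prod_congr rfl fun k hk => ?_
  rw [hx k hk, hy k hk]

/-- PROOF: `NW_split` for `f`, then for `e`; `NW D x y A (insert e (insert f B)) = 0`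
by `par_no_tree`, and `par_swap`; the weights at `e` do not matter once `e` is in `A` or `B`. -/
theorem NW_par (hef : e ≠ f) (he : e ∈ D.rest A B) (hf : f ∈ D.rest A B) (hp : Par D.g e f)
    (hxe : x e = 1) (hye : y e = 1) (hxf : x f = 1) (hyf : y f = 1) :
    NW D x y A B = NW D (Function.update x e 2) y (insert f A) B := by
  have hsw := par_swap (x := x) (y := y) hef he hf hp
  have he' := mem_rest.1 he
  have hf' := mem_rest.1 hf
  have h1 : e ∉ insert f A := by
    rw [Finset.mem_insert, not_or]
    exact ⟨hef, he'.1⟩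
  have h2 : e ∉ insert f B := by
    rw [Finset.mem_insert, not_or]
    exact ⟨hef, he'.2⟩
  have hz : NW D x y A (insert e (insert f B)) = 0 := by
    unfold NW
    have : D.trees A (insert e (insert f B)) = ∅ := by
      rw [Finset.eq_empty_iff_forall_notMem]
      intro S hS
      refine par_no_tree hef hp hS ?_
      rw [D.mem_trees] at hS
      exact ⟨hS.1 (Finset.mem_insert_self _ _),
        hS.1 (Finset.mem_insert_of_mem (Finset.mem_insert_self _ _))⟩
    rw [this, Finset.sum_empty]
  have c1 : NW D (Function.update x e 2) y (insert e (insert f A)) B =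
      NW D x y (insert e (insert f A)) B := by
    refine NW_congr (fun k hk => ?_) (fun k _ => rfl)
    rw [mem_rest, Finset.mem_insert] at hk
    exact Function.update_of_ne (fun h => hk.1 (Or.inl h)) _ _
  have c2 : NW D (Function.update x e 2) y (insert f A) (insert e B) =
      NW D x y (insert f A) (insert e B) := by
    refine NW_congr (fun k hk => ?_) (fun k _ => rfl)
    rw [mem_rest, Finset.mem_insert (a := k) (b := e)] at hk
    exact Function.update_of_ne (fun h => hk.2 (Or.inl h)) _ _
  rw [NW_split (x := x) (y := y) hf'.1 hf'.2, hxf, hyf,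
    NW_split (x := x) (y := y) (A := A) he'.1 h2, hz,
    NW_split (x := x) (y := y) (B := B) h1 he'.2,
    NW_split (x := Function.update x e 2) (y := y) (B := B) h1 he'.2,
    c1, c2, Function.update_self, hxe, hye, hsw]
  ring

/-- the same for the other colour, from `NW_dual` -/
theorem NW_par_dual (hef : e ≠ f) (he : e ∈ D.rest A B) (hf : f ∈ D.rest A B)
    (hp : Par D.h e f) (hxe : x e = 1) (hye : y e = 1) (hxf : x f = 1) (hyf : y f = 1) :
    NW D x y A B = NW D x (Function.update y e 2) A (insert f B) := by
  have he' : e ∈ D.dual.rest B A := by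
    rw [D.rest_dual]
    exact he
  have hf' : f ∈ D.dual.rest B A := by
    rw [D.rest_dual]
    exact hf
  have h1 := NW_par (D := D.dual) (x := y) (y := x) (A := B) (B := A) hef he' hf' hp hye hxe
    hyf hxf
  rw [← NW_dual (D := D) (x := x) (y := y) (A := A) (B := B), h1]
  exact NW_dual (D := D) (x := x) (y := Function.update y e 2) (A := A) (B := insert f B)

/-- PROOF: induction on `I`. -/
theorem pairs_ind {b : ℕ} (p q : Fin b → D.E) (hinj : Function.Injective (Sum.elim p q))
    (hp : ∀ i, Par D.g (p i) (q i) ∨ Par D.h (p i) (q i)) (I : Finset (Fin b)) :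
    ∃ (x y G : D.E → ℝ) (A B : Finset D.E), (∀ e, Kd (x e) (y e) (G e)) ∧ Disjoint A B ∧
      A ∪ B = I.image q ∧ (∀ e, e ∉ I.image p → x e = 1 ∧ y e = 1 ∧ G e = 3657 / 2000) ∧
      (∀ i ∈ I, G (p i) = 29 / 10) ∧ (D.N ∅ ∅ : ℝ) = NW D x y A B := by
  have hpp : ∀ i j, p i = p j → i = j := by
    intro i j h
    have : (Sum.inl i : Fin b ⊕ Fin b) = Sum.inl j := hinj h
    exact Sum.inl_injective this
  have hqq : ∀ i j, q i = q j → i = j := by
    intro i j h
    have : (Sum.inr i : Fin b ⊕ Fin b) = Sum.inr j := hinj h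
    exact Sum.inr_injective this
  have hpq : ∀ i j, p i ≠ q j := by
    intro i j h
    have : (Sum.inl i : Fin b ⊕ Fin b) = Sum.inr j := hinj h
    exact absurd this (by simp)
  induction I using Finset.induction_on with
  | empty =>
    refine ⟨fun _ => 1, fun _ => 1, fun _ => 3657 / 2000, ∅, ∅, fun e => Or.inl ⟨rfl, rfl, rfl⟩,
      Finset.disjoint_empty_left _, by simp, fun e _ => ⟨rfl, rfl, rfl⟩, by simp, ?_⟩
    exact NW_one.symm
  | insert i I hi ih =>
    obtain ⟨x, y, G, A, B, hK, hd, hu, h1, hG, hN⟩ := ih
    have heI : p i ∉ I.image p := by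
      rw [Finset.mem_image]
      rintro ⟨j, hj, hji⟩
      rw [hpp _ _ hji] at hj
      exact hi hj
    have hfp : q i ∉ I.image p := by
      rw [Finset.mem_image]
      rintro ⟨j, _, hji⟩
      exact hpq _ _ hji
    have heq : p i ∉ I.image q := by
      rw [Finset.mem_image]
      rintro ⟨j, _, hji⟩
      exact hpq _ _ hji.symm
    have hfq : q i ∉ I.image q := by
      rw [Finset.mem_image]
      rintro ⟨j, hj, hji⟩
      rw [hqq _ _ hji] at hj
      exact hi hj
    rw [← hu, Finset.mem_union, not_or] at heq hfq
    have he : p i ∈ D.rest A B := mem_rest.2 heq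
    have hf : q i ∈ D.rest A B := mem_rest.2 hfq
    obtain ⟨hxe, hye, -⟩ := h1 _ heI
    obtain ⟨hxf, hyf, -⟩ := h1 _ hfp
    have hout : ∀ e, e ∉ (insert i I).image p → e ≠ p i ∧ e ∉ I.image p := by
      intro e he
      rw [Finset.image_insert, Finset.mem_insert, not_or] at he
      exact he
    have hGi : ∀ j ∈ insert i I, Function.update G (p i) (29 / 10) (p j) = 29 / 10 := by
      intro j hj
      by_cases hji : j = i
      · rw [hji, Function.update_self]
      · rw [Function.update_of_ne (fun h => hji (hpp _ _ h))]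
        exact hG j ((Finset.mem_insert.1 hj).resolve_left hji)
    rcases hp i with hpar | hpar
    · refine ⟨Function.update x (p i) 2, y, Function.update G (p i) (29 / 10), insert (q i) A, B,
        ?_, ?_, ?_, ?_, hGi, ?_⟩
      · intro e
        by_cases hee : e = p i
        · rw [hee, Function.update_self, Function.update_self]
          exact Or.inr (Or.inl ⟨rfl, hye, rfl⟩)
        · rw [Function.update_of_ne hee, Function.update_of_ne hee]
          exact hK e
      · rw [Finset.disjoint_insert_left]
        exact ⟨hfq.2, hd⟩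
      · rw [Finset.insert_union, hu, Finset.image_insert]
      · intro e hee
        obtain ⟨h2, h3⟩ := hout e hee
        rw [Function.update_of_ne h2, Function.update_of_ne h2]
        exact h1 e h3
      · rw [hN]
        exact NW_par (hpq i i) he hf hpar hxe hye hxf hyf
    · refine ⟨x, Function.update y (p i) 2, Function.update G (p i) (29 / 10), A, insert (q i) B,
        ?_, ?_, ?_, ?_, hGi, ?_⟩
      · intro e
        by_cases hee : e = p i
        · rw [hee, Function.update_self, Function.update_self]
          exact Or.inr (Or.inr ⟨hxe, rfl, rfl⟩)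
        · rw [Function.update_of_ne hee, Function.update_of_ne hee]
          exact hK e
      · rw [Finset.disjoint_insert_right]
        exact ⟨hfq.1, hd⟩
      · rw [Finset.union_insert, hu, Finset.image_insert]
      · intro e hee
        obtain ⟨h2, h3⟩ := hout e hee
        rw [Function.update_of_ne h2, Function.update_of_ne h2]
        exact h1 e h3
      · rw [hN]
        exact NW_par_dual (hpq i i) he hf hpar hxe hye hxf hyf

end Pool.Agent.Lib.TWt
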