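import Pool.Agent.Lib.TWt.Ind
import Pool.Agent.Lib.TWt.Pair
import Pool.Agent.Lib.TWt.NumTwo
import Pool.Agent.Lib.TDen.Fin

/-!
# Diagrams with many twist regions of at least two crossings
-/

set_option autoImplicit false

namespace Pool.Agent.Lib.TWt

open Real Pool.Agent.Lib.MP_20e20b_gt Pool.Agent.Lib.TDen

/-- from `pairs_ind` (`I = univ`), `NW_le` and `D.coefSum_bracket` -/
theorem coefSum_pairs (D : Diagram) {b : ℕ} (p q : Fin b → D.E)
    (hinj : Function.Injective (Sum.elim p q))
    (hp : ∀ i, Par D.g (p i) (q i) ∨ Par D.h (p i) (q i)) :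
    2 * b ≤ D.crossings ∧
    (coefSum D.bracket : ℝ) ≤ (3657 / 2000 : ℝ) ^ (D.crossings - 2 * b) * (29 / 10) ^ b := by
  have hp1 : Function.Injective p := fun i j h => by
    have h' : Sum.elim p q (Sum.inl i) = Sum.elim p q (Sum.inl j) := h
    exact Sum.inl_injective (hinj h')
  have hq1 : Function.Injective q := fun i j h => by
    have h' : Sum.elim p q (Sum.inr i) = Sum.elim p q (Sum.inr j) := h
    exact Sum.inr_injective (hinj h')
  have hpq : ∀ i j, p i ≠ q j := fun i j h => by
    have h' : Sum.elim p q (Sum.inl i) = Sum.elim p q (Sum.inr j) := h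
    have h2 := hinj h'
    cases h2
  set P : Finset D.E := Finset.univ.image p with hPdef
  set Q : Finset D.E := Finset.univ.image q with hQdef
  have hPc : P.card = b := by
    rw [hPdef, Finset.card_image_of_injective _ hp1, Finset.card_univ, Fintype.card_fin]
  have hQc : Q.card = b := by
    rw [hQdef, Finset.card_image_of_injective _ hq1, Finset.card_univ, Fintype.card_fin]
  have hdisj : Disjoint P Q := by
    rw [Finset.disjoint_left]
    intro e he he'
    rw [hPdef, Finset.mem_image] at he
    rw [hQdef, Finset.mem_image] at he'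
    obtain ⟨i, _, hi⟩ := he
    obtain ⟨j, _, hj⟩ := he'
    exact hpq i j (hi.trans hj.symm)
  have hcard : (P ∪ Q).card = 2 * b := by
    rw [Finset.card_union_of_disjoint hdisj, hPc, hQc]; ring
  have hb : 2 * b ≤ D.crossings := by
    rw [← hcard]; exact Finset.card_le_univ _
  obtain ⟨x, y, G, A, B, hK, hAB, hU, hout, hG, hN⟩ := pairs_ind p q hinj hp Finset.univ
  refine ⟨hb, ?_⟩
  have h1 : (coefSum D.bracket : ℝ) ≤ (D.N ∅ ∅ : ℝ) := by exact_mod_cast D.coefSum_bracket
  have h2 : NW D x y A B ≤ ∏ e ∈ D.rest A B, G e := NW_le D hK A B hAB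
  have h3 : ∏ e ∈ D.rest A B, G e =
      (3657 / 2000 : ℝ) ^ (D.crossings - 2 * b) * (29 / 10) ^ b := by
    have hr : D.rest A B = (P ∪ Q)ᶜ ∪ P := by
      unfold Diagram.rest
      rw [hU]
      ext e
      simp only [Finset.mem_compl, Finset.mem_union]
      have : e ∈ P → e ∉ Q := fun h => Finset.disjoint_left.1 hdisj h
      tauto
    have hd2 : Disjoint (P ∪ Q)ᶜ P := by
      rw [Finset.disjoint_left]
      intro e he he'
      rw [Finset.mem_compl, Finset.mem_union] at he
      exact he (Or.inl he')
    rw [hr, Finset.prod_union hd2]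
    congr 1
    · have e1 : ∀ e ∈ (P ∪ Q)ᶜ, G e = 3657 / 2000 := by
        intro e he
        refine (hout e ?_).2.2
        intro h
        rw [Finset.mem_compl, Finset.mem_union] at he
        exact he (Or.inl h)
      rw [Finset.prod_congr rfl e1, Finset.prod_const, Finset.card_compl, hcard]
      rfl
    · rw [hPdef, Finset.prod_image (fun i _ j _ h => hp1 h),
        Finset.prod_congr rfl (fun i _ => hG i (Finset.mem_univ i)), Finset.prod_const,
        Finset.card_univ, Fintype.card_fin]
  rw [← h3]
  exact (h1.trans hN.le).trans h2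

theorem density_pairs (D : Diagram) (h1 : 1 ≤ D.crossings) {b : ℕ} (p q : Fin b → D.E)
    (hinj : Function.Injective (Sum.elim p q))
    (hp : ∀ i, Par D.g (p i) (q i) ∨ Par D.h (p i) (q i)) (hb : 3 * D.crossings ≤ 20 * b) :
    2 * π * Real.log D.mu / D.crossings ≤ vOct := by
  obtain ⟨h2, h3⟩ := coefSum_pairs D p q hinj hp
  rcases (mu_nonneg D).eq_or_lt with h | h
  · rw [← h, Real.log_zero, mul_zero, zero_div]
    have := vOct_gt
    linarith
  · exact num_pairs h1 hb h2 h ((mu_le_coefSum D).trans h3)

end Pool.Agent.Lib.TWt
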