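import Pool.Agent.Lib.TWt.Defs

/-!
# The weights of an algebraic tangle
-/

set_option autoImplicit false

namespace Pool.Agent.Lib.TWt

open Pool.Agent.Lib.TDen

/-- the weights of a crossing that stands for an algebraic tangle of `c` crossings -/
def Okk (c : ℕ) (x y : ℝ) : Prop :=
  1 ≤ c ∧ 1 ≤ x ∧ 1 ≤ y ∧ x ≤ Nat.fib (c + 1) ∧ y ≤ Nat.fib (c + 1) ∧ x + y ≤ Nat.fib (c + 2)

private lemma okk_sum {x1 y1 x2 y2 P1 p1 P2 p2 : ℝ} (hp1 : 0 ≤ p1)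
    (hP1 : 0 ≤ P1) (hx2 : 0 ≤ x2) (hy2 : 0 ≤ y2)
    (a1 : y1 ≤ P1) (a2 : x1 + y1 ≤ P1 + p1) (b2 : y2 ≤ P2)
    (b3 : x2 + y2 ≤ P2 + p2) :
    x1 * y2 + y1 * x2 + y1 * y2 ≤ P1 * (P2 + p2) + p1 * P2 := by
  have e1 : (x1 + y1) * y2 ≤ (P1 + p1) * y2 := mul_le_mul_of_nonneg_right a2 hy2
  have e2 : y1 * x2 ≤ P1 * x2 := mul_le_mul_of_nonneg_right a1 hx2
  have e3 : P1 * (x2 + y2) ≤ P1 * (P2 + p2) := mul_le_mul_of_nonneg_left b3 hP1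
  have e4 : p1 * y2 ≤ p1 * P2 := mul_le_mul_of_nonneg_left b2 hp1
  nlinarith

private lemma okk_cross_aux {x1 y1 x2 y2 P1 p1 P2 p2 : ℝ} (hp1 : 0 ≤ p1) (hpP : p1 ≤ P1)
    (hx2 : 0 ≤ x2) (hxy : x2 ≤ y2)
    (a0 : x1 ≤ P1) (a2 : x1 + y1 ≤ P1 + p1) (b2 : y2 ≤ P2) (b3 : x2 + y2 ≤ P2 + p2) :
    x1 * y2 + y1 * x2 ≤ P1 * P2 + p1 * p2 := by
  have e1 : (x1 + y1) * x2 ≤ (P1 + p1) * x2 := mul_le_mul_of_nonneg_right a2 hx2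
  have e2 : x1 * (y2 - x2) ≤ P1 * (y2 - x2) := mul_le_mul_of_nonneg_right a0 (by linarith)
  have e3 : p1 * (x2 + y2) ≤ p1 * (P2 + p2) := mul_le_mul_of_nonneg_left b3 hp1
  have e4 : (P1 - p1) * y2 ≤ (P1 - p1) * P2 := mul_le_mul_of_nonneg_left b2 (by linarith)
  nlinarith

private lemma okk_cross {x1 y1 x2 y2 P1 p1 P2 p2 : ℝ} (hp1 : 0 ≤ p1) (hpP : p1 ≤ P1)
    (hx2 : 0 ≤ x2) (hy2 : 0 ≤ y2)
    (a0 : x1 ≤ P1) (a1 : y1 ≤ P1) (a2 : x1 + y1 ≤ P1 + p1) (b1 : x2 ≤ P2) (b2 : y2 ≤ P2)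
    (b3 : x2 + y2 ≤ P2 + p2) :
    x1 * y2 + y1 * x2 ≤ P1 * P2 + p1 * p2 := by
  rcases le_total x2 y2 with h | h
  · exact okk_cross_aux hp1 hpP hx2 h a0 a2 b2 b3
  · have h1 := okk_cross_aux (x1 := y1) (y1 := x1) (x2 := y2) (y2 := x2) (P2 := P2) (p2 := p2)
      hp1 hpP hy2 h a1 (by linarith) b1 (by linarith)
    linarith

/-- PROOF: `P i = fib (c i + 1)`, `p i = fib (c i)`, `Q i = P i + p i`;
`fib (c1 + c2 + 1) = P1 P2 + p1 p2`, `fib (c1 + c2 + 2) = P1 P2 + P1 p2 + p1 P2`.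
`x1 y2 + y1 (x2 + y2) = (x1 + y1) y2 + y1 x2 ≤ Q1 y2 + P1 x2 = P1 (x2 + y2) + p1 y2
≤ P1 Q2 + p1 P2`. For `x1 y2 + y1 x2 ≤ P1 P2 + p1 p2`, if `x2 ≤ y2`:
`= (x1 + y1) x2 + x1 (y2 - x2) ≤ Q1 x2 + P1 (y2 - x2) = p1 (x2 + y2) + (P1 - p1) y2
≤ p1 Q2 + (P1 - p1) P2`; if `y2 ≤ x2` the same with `x`, `y` exchanged. -/
theorem Okk_merge {c1 c2 : ℕ} {x1 y1 x2 y2 : ℝ} (h1 : Okk c1 x1 y1) (h2 : Okk c2 x2 y2) :
    Okk (c1 + c2) (x1 * y2 + y1 * x2) (y1 * y2) ∧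
    Okk (c1 + c2) (x1 * x2) (x1 * y2 + y1 * x2) := by
  obtain ⟨hc1, hx1, hy1, a0, a1, a2⟩ := h1
  obtain ⟨hc2, hx2, hy2, b0, b1, b2⟩ := h2
  have f1 : ((Nat.fib (c1 + c2 + 1) : ℕ) : ℝ) =
      Nat.fib (c1 + 1) * Nat.fib (c2 + 1) + Nat.fib c1 * Nat.fib c2 := by
    rw [Nat.fib_add]
    push_cast
    ring
  have q1 : ((Nat.fib (c1 + 2) : ℕ) : ℝ) = Nat.fib (c1 + 1) + Nat.fib c1 := by
    rw [Nat.fib_add_two]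
    push_cast
    ring
  have q2 : ((Nat.fib (c2 + 2) : ℕ) : ℝ) = Nat.fib (c2 + 1) + Nat.fib c2 := by
    rw [Nat.fib_add_two]
    push_cast
    ring
  have f2 : ((Nat.fib (c1 + c2 + 2) : ℕ) : ℝ) =
      Nat.fib (c1 + 1) * (Nat.fib (c2 + 1) + Nat.fib c2) + Nat.fib c1 * Nat.fib (c2 + 1) := by
    have e : c1 + c2 + 2 = c1 + (c2 + 1) + 1 := by ring
    rw [e, Nat.fib_add, show c2 + 1 + 1 = c2 + 2 by ring]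
    push_cast
    rw [q2]
    ring
  have hp1 : (0 : ℝ) ≤ Nat.fib c1 := Nat.cast_nonneg _
  have hp2 : (0 : ℝ) ≤ Nat.fib c2 := Nat.cast_nonneg _
  have hP1 : (0 : ℝ) ≤ Nat.fib (c1 + 1) := Nat.cast_nonneg _
  have hP2 : (0 : ℝ) ≤ Nat.fib (c2 + 1) := Nat.cast_nonneg _
  have hpP : (Nat.fib c1 : ℝ) ≤ Nat.fib (c1 + 1) := by exact_mod_cast Nat.fib_le_fib_succ
  rw [q1] at a2
  rw [q2] at b2
  have hcr := okk_cross (x1 := x1) (y1 := y1) (x2 := x2) (y2 := y2) hp1 hpP (by linarith)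
    (by linarith) a0 a1 a2 b0 b1 b2
  have hs1 := okk_sum (x1 := x1) (y1 := y1) (x2 := x2) (y2 := y2) hp1 hP1 (by linarith)
    (by linarith) a1 a2 b1 b2
  have hs2 := okk_sum (x1 := y1) (y1 := x1) (x2 := y2) (y2 := x2) (P2 := Nat.fib (c2 + 1))
    (p2 := Nat.fib c2) hp1 hP1 (by linarith)
    (by linarith) a0 (by linarith) b0 (by linarith)
  have hpp : (0 : ℝ) ≤ Nat.fib c1 * Nat.fib c2 := mul_nonneg hp1 hp2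
  have hyy : y1 * y2 ≤ Nat.fib (c1 + 1) * Nat.fib (c2 + 1) :=
    mul_le_mul a1 b1 (by linarith) hP1
  have hxx : x1 * x2 ≤ Nat.fib (c1 + 1) * Nat.fib (c2 + 1) :=
    mul_le_mul a0 b0 (by linarith) hP1
  have g1 : 1 ≤ x1 * y2 := one_le_mul_of_one_le_of_one_le hx1 hy2
  have g2 : 1 ≤ y1 * x2 := one_le_mul_of_one_le_of_one_le hy1 hx2
  have g3 : 1 ≤ y1 * y2 := one_le_mul_of_one_le_of_one_le hy1 hy2
  have g4 : 1 ≤ x1 * x2 := one_le_mul_of_one_le_of_one_le hx1 hx2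
  refine ⟨⟨by omega, by linarith, g3, ?_, ?_, ?_⟩, ⟨by omega, g4, by linarith, ?_, ?_, ?_⟩⟩
  · rw [f1]
    exact hcr
  · rw [f1]
    linarith
  · rw [f2]
    exact hs1
  · rw [f1]
    linarith
  · rw [f1]
    exact hcr
  · rw [f2]
    linarith

end Pool.Agent.Lib.TWt
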