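import Pool.Agent.Lib.TWt.GenRed
import Pool.Agent.Lib.TWt.ClsNum
import Pool.Agent.Lib.TDen.Fin

/-!
# Diagrams that reduce to few crossings: the bound
-/

set_option autoImplicit false

namespace Pool.Agent.Lib.TWt

open Real Pool.Agent.Lib.MP_20e20b_gt Pool.Agent.Lib.TDen

private lemma fib_grow (n : ℕ) :
    ((Nat.fib (n + 4) : ℕ) : ℝ) ≤ 3657 / 2000 * (16537 / 10000 : ℝ) ^ (n + 1) ∧
    ((Nat.fib (n + 5) : ℕ) : ℝ) ≤ 3657 / 2000 * (16537 / 10000 : ℝ) ^ (n + 2) := by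
  induction n with
  | zero =>
    have e1 : Nat.fib (0 + 4) = 3 := by decide
    have e2 : Nat.fib (0 + 5) = 5 := by decide
    rw [e1, e2]
    norm_num
  | succ n ih =>
    obtain ⟨h1, h2⟩ := ih
    refine ⟨by
      rw [show n + 1 + 4 = n + 5 by ring, show n + 1 + 1 = n + 2 by ring]
      exact h2, ?_⟩
    have e : ((Nat.fib (n + 1 + 5) : ℕ) : ℝ) = Nat.fib (n + 4) + Nat.fib (n + 5) := by
      rw [show n + 1 + 5 = n + 4 + 2 by ring, Nat.fib_add_two]
      push_cast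
      rfl
    rw [e]
    have h3 : (0 : ℝ) ≤ (16537 / 10000 : ℝ) ^ (n + 1) := by positivity
    have e2 : (16537 / 10000 : ℝ) ^ (n + 2) = (16537 / 10000 : ℝ) ^ (n + 1) * (16537 / 10000) := by
      rw [show n + 2 = n + 1 + 1 by ring, pow_succ]
    have e3 : (16537 / 10000 : ℝ) ^ (n + 1 + 2) =
        (16537 / 10000 : ℝ) ^ (n + 1) * (16537 / 10000) * (16537 / 10000) := by
      rw [show n + 1 + 2 = n + 1 + 1 + 1 by ring, pow_succ, pow_succ]
    rw [e2] at h2
    rw [e3]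
    nlinarith

/-- PROOF: `c = 1`: `x = y = 1`. `c ≥ 2`: `fib (c + 2) ≤ 1.8285 * 1.6537^(c - 1)` by
induction (`1.6537^2 ≥ 1.6537 + 1`). -/
theorem Okk_Kdd {c : ℕ} {x y : ℝ} (h : Okk c x y) :
    Kdd x y (3657 / 2000 * (16537 / 10000 : ℝ) ^ (c - 1)) := by
  obtain ⟨hc, hx, hy, a0, a1, a2⟩ := h
  rcases c with _ | _ | n
  · omega
  · have e1 : Nat.fib (0 + 1 + 1) = 1 := by decide
    rw [e1, Nat.cast_one] at a0 a1
    refine Or.inl (Or.inl ⟨le_antisymm a0 hx, le_antisymm a1 hy, by norm_num⟩)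
  · refine Or.inr ⟨by linarith, by linarith, ?_⟩
    have h1 := (fib_grow n).1
    rw [show n + 1 + 1 + 2 = n + 4 by ring] at a2
    rw [show n + 1 + 1 - 1 = n + 1 by omega]
    exact a2.trans h1

/-- `1.6537^11 ≤ 2^8` -/
private lemma log_gen : Real.log (16537 / 10000) ≤ 0.50411 := by
  have h1 : ((16537 / 10000 : ℝ)) ^ 11 ≤ 2 ^ 8 := by norm_num
  have h2 : Real.log ((16537 / 10000 : ℝ) ^ 11) ≤ Real.log (2 ^ 8) :=
    Real.log_le_log (by positivity) h1
  rw [Real.log_pow, Real.log_pow] at h2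
  push_cast at h2
  have h3 := Real.log_two_lt_d9
  norm_num at h2 h3 ⊢
  linarith

/-- `1.6537^11 ≤ 2^8` -/
lemma gen_num {N n : ℕ} (h1 : 1 ≤ N) (h2 : 100 * n ≤ 79 * N) {s : ℝ}
    (hs : 0 < s) (h : s ≤ (3657 / 2000 : ℝ) ^ n * (16537 / 10000) ^ (N - n)) :
    2 * π * Real.log s / N ≤ vOct := by
  have hN1 : (1 : ℝ) ≤ N := by exact_mod_cast h1
  have hN : (0 : ℝ) < N := by linarith
  have htN : n ≤ N := by omega
  have hv := vOct_gt'
  have hπ := Real.pi_lt_d6
  have hπ0 := Real.pi_pos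
  rw [div_le_iff₀ hN]
  have hlog : Real.log s ≤ n * Real.log (3657 / 2000) +
      ((N : ℝ) - n) * Real.log (16537 / 10000) := by
    have h3 := Real.log_le_log hs h
    rw [Real.log_mul (by positivity) (by positivity), Real.log_pow, Real.log_pow,
      Nat.cast_sub htN] at h3
    exact h3
  have ht0 : (0 : ℝ) ≤ n := Nat.cast_nonneg n
  have htR : (n : ℝ) ≤ N := by exact_mod_cast htN
  have h2R : 100 * (n : ℝ) ≤ 79 * N := by exact_mod_cast h2
  have a1 : (n : ℝ) * Real.log (3657 / 2000) ≤ n * 0.60352 :=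
    mul_le_mul_of_nonneg_left log_delta_le ht0
  have a2 : ((N : ℝ) - n) * Real.log (16537 / 10000) ≤ (N - n) * 0.50411 :=
    mul_le_mul_of_nonneg_left log_gen (by linarith)
  have h7 : Real.log s ≤ 0.582644 * N := by
    norm_num at a1 a2 ⊢
    linarith
  have h8 : 2 * π * Real.log s ≤ 2 * π * (0.582644 * N) :=
    mul_le_mul_of_nonneg_left h7 (by positivity)
  have h9 : 2 * π * (0.582644 * (N : ℝ)) ≤ 6.283186 * (0.582644 * N) :=
    mul_le_mul_of_nonneg_right (by linarith) (by positivity)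
  have h11 : (3.6637 : ℝ) * N ≤ vOct * N := mul_le_mul_of_nonneg_right hv.le hN.le
  norm_num at h8 h9 h11 ⊢
  linarith

/-- From `Red_weights`, `NW_led`, `Okk_Kdd`, `D.coefSum_bracket`. -/
theorem coefSum_red {D : Diagram} {A B : Finset D.E} (h : Red D A B) :
    (coefSum D.bracket : ℝ) ≤ (3657 / 2000 : ℝ) ^ (D.rest A B).card *
      (16537 / 10000) ^ (D.crossings - (D.rest A B).card) := by
  classical
  obtain ⟨x, y, c, hd, hO, hsum, hN⟩ := Red_weights h
  have hle := NW_led D (fun e => Okk_Kdd (hO e)) A B hd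
  have hexp : ∑ e ∈ D.rest A B, (c e - 1) = D.crossings - (D.rest A B).card := by
    have h1 : ∑ e ∈ D.rest A B, (c e - 1) + (D.rest A B).card = ∑ e ∈ D.rest A B, c e := by
      rw [Finset.card_eq_sum_ones, ← Finset.sum_add_distrib]
      exact Finset.sum_congr rfl fun e _ => Nat.sub_add_cancel (hO e).1
    omega
  have hprod : ∏ e ∈ D.rest A B, (3657 / 2000 * (16537 / 10000 : ℝ) ^ (c e - 1)) =
      (3657 / 2000 : ℝ) ^ (D.rest A B).card *
        (16537 / 10000) ^ (D.crossings - (D.rest A B).card) := by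
    rw [Finset.prod_mul_distrib, Finset.prod_const, Finset.prod_pow_eq_pow_sum, hexp]
  have hc : (coefSum D.bracket : ℝ) ≤ (D.N ∅ ∅ : ℝ) := by exact_mod_cast D.coefSum_bracket
  rw [hN] at hc
  rw [← hprod]
  exact hc.trans hle

/-- the density bound -/
theorem density_red {D : Diagram} (h1 : 1 ≤ D.crossings) {A B : Finset D.E} (h : Red D A B)
    (hn : 100 * (D.rest A B).card ≤ 79 * D.crossings) :
    2 * π * Real.log D.mu / D.crossings ≤ vOct := by
  rcases (mu_nonneg D).eq_or_lt with h0 | h0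
  · rw [← h0, Real.log_zero, mul_zero, zero_div]
    have := vOct_gt
    linarith
  · exact gen_num h1 hn h0 ((mu_le_coefSum D).trans (coefSum_red h))

end Pool.Agent.Lib.TWt
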