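import Pool.Agent.Lib.TWt.Pair

/-!
# Merging two crossings that are parallel after contraction
-/

set_option autoImplicit false

namespace Pool.Agent.Lib.TWt

open Pool.Agent.Lib.TDen

section

variable {D : Diagram} {x y : D.E → ℝ} {A B : Finset D.E} {e f : D.E}

private lemma gp_symm {V E : Type} {g : E → V × V} {e f : E} (h : Par g e f) : Par g f e := by
  rcases h with h | h
  · exact Or.inl h.symm
  · refine Or.inr ?_
    rw [h, Prod.swap_swap]

private lemma gp_conn {V E : Type} {g : E → V × V} {B S : Finset E} {e f : E}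
    (h : Par (quo g B) e f) (hBS : B ⊆ S) (he : e ∈ S) : Conn g S (g f).1 (g f).2 := by
  have h1 : Conn g S (g e).1 (g e).2 := Conn.edge he
  rcases h with h | h
  · have h2 : Conn g B (g e).1 (g f).1 := congrArg Prod.fst h
    have h3 : Conn g B (g e).2 (g f).2 := congrArg Prod.snd h
    exact ((h2.mono hBS).symm.trans h1).trans (h3.mono hBS)
  · have h2 : Conn g B (g e).1 (g f).2 := congrArg Prod.fst h
    have h3 : Conn g B (g e).2 (g f).1 := congrArg Prod.snd h
    exact ((h3.mono hBS).symm.trans h1.symm).trans (h2.mono hBS)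

private lemma gp_no_tree (hef : e ≠ f) (hfB : f ∉ B) (hp : Par (quo D.g B) e f)
    {A' B' S : Finset D.E} (hB : B ⊆ B') (hS : S ∈ D.trees A' B') : ¬ (e ∈ S ∧ f ∈ S) := by
  rintro ⟨he, hf⟩
  have h1 := D.card_of_mem hS
  rw [D.mem_trees] at hS
  have he' : e ∈ S.erase f := Finset.mem_erase.2 ⟨hef, he⟩
  have hB' : B ⊆ S.erase f := by
    intro k hk
    refine Finset.mem_erase.2 ⟨?_, hS.1 (hB hk)⟩
    rintro rfl
    exact hfB hk
  have h2 := comps_insert_of_conn D.g (gp_conn hp hB' he')
  rw [Finset.insert_erase hf, hS.2.2.1] at h2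
  have h3 := card_le_comps_add D.g (S.erase f)
  have h4 := Finset.card_erase_of_mem hf
  have h5 : 0 < S.card := Finset.card_pos.2 ⟨f, hf⟩
  omega

private lemma gp_swap_mem (hef : e ≠ f) (he : e ∈ D.rest A B) (hf : f ∈ D.rest A B)
    (hp : Par (quo D.g B) e f) {S : Finset D.E} (hS : S ∈ D.trees (insert f A) (insert e B)) :
    insert f (S.erase e) ∈ D.trees (insert e A) (insert f B) := by
  rw [mem_trees_iff] at hS ⊢
  rw [mem_rest] at he hf
  obtain ⟨h1, h2, h3, h4⟩ := hS
  rw [Finset.insert_subset_iff] at h1
  rw [Finset.disjoint_insert_left] at h2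
  have hBS : B ⊆ insert f (S.erase e) := by
    intro k hk
    refine Finset.mem_insert_of_mem (Finset.mem_erase.2 ⟨?_, h1.2 hk⟩)
    rintro rfl
    exact he.2 hk
  refine ⟨?_, ?_, ?_, ?_⟩
  · intro k hk
    rw [Finset.mem_insert] at hk
    rcases hk with hk | hk
    · rw [hk]
      exact Finset.mem_insert_self _ _
    · exact hBS hk
  · rw [Finset.disjoint_left]
    intro k hk hk'
    rw [Finset.mem_insert] at hk hk'
    rcases hk with rfl | hk
    · rcases hk' with hk' | hk'
      · exact hef hk'
      · exact (Finset.mem_erase.1 hk').1 rfl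
    · rcases hk' with rfl | hk'
      · exact hf.1 hk
      · exact (Finset.disjoint_left.1 h2.2 hk) (Finset.mem_erase.1 hk').2
  · have hf' : f ∉ S.erase e := fun h => h2.1 (Finset.mem_erase.1 h).2
    rw [Finset.card_insert_of_notMem hf', Finset.card_erase_of_mem h1.1]
    have h5 : 0 < S.card := Finset.card_pos.2 ⟨e, h1.1⟩
    omega
  · intro u v
    refine (h4 u v).rec_on (Conn D.g (insert f (S.erase e)))
      ⟨Conn.refl D.g _, Conn.symm, Conn.trans⟩ ?_
    intro k hk
    by_cases hke : k = e
    · rw [hke]
      exact gp_conn (gp_symm hp) hBS (Finset.mem_insert_self _ _)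
    · exact Conn.edge (Finset.mem_insert_of_mem (Finset.mem_erase.2 ⟨hke, hk⟩))

private lemma gp_swap (hef : e ≠ f) (he : e ∈ D.rest A B) (hf : f ∈ D.rest A B)
    (hp : Par (quo D.g B) e f) :
    NW D x y (insert f A) (insert e B) = NW D x y (insert e A) (insert f B) := by
  unfold NW
  have hr : D.rest (insert f A) (insert e B) = D.rest (insert e A) (insert f B) := by
    ext k
    rw [mem_rest, mem_rest, Finset.mem_insert, Finset.mem_insert, Finset.mem_insert,
      Finset.mem_insert]
    tauto
  rw [hr]
  refine Finset.sum_nbij' (fun S => insert f (S.erase e)) (fun S => insert e (S.erase f))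
    ?_ ?_ ?_ ?_ ?_
  · intro S hS
    exact gp_swap_mem hef he hf hp hS
  · intro S hS
    exact gp_swap_mem hef.symm hf he (gp_symm hp) hS
  · intro S hS
    rw [D.mem_trees, Finset.insert_subset_iff, Finset.disjoint_insert_left] at hS
    obtain ⟨h1, h2, -⟩ := hS
    have hf' : f ∉ S.erase e := fun h => h2.1 (Finset.mem_erase.1 h).2
    rw [Finset.erase_insert hf', Finset.insert_erase h1.1]
  · intro S hS
    rw [D.mem_trees, Finset.insert_subset_iff, Finset.disjoint_insert_left] at hS
    obtain ⟨h1, h2, -⟩ := hS
    have he' : e ∉ S.erase f := fun h => h2.1 (Finset.mem_erase.1 h).2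
    rw [Finset.erase_insert he', Finset.insert_erase h1.1]
  · intro S hS
    refine Finset.prod_congr rfl fun k hk => ?_
    rw [mem_rest, Finset.mem_insert, Finset.mem_insert] at hk
    have h1 : k ≠ e := fun h => hk.1 (Or.inl h)
    have h2 : k ≠ f := fun h => hk.2 (Or.inl h)
    have h3 : (k ∈ S) ↔ k ∈ insert f (S.erase e) := by
      rw [Finset.mem_insert, Finset.mem_erase]
      tauto
    by_cases h4 : k ∈ S
    · rw [if_pos h4, if_pos (h3.1 h4)]
    · rw [if_neg h4, if_neg (fun h => h4 (h3.2 h))]

private lemma gp_congr {x' y' : D.E → ℝ} {A' B' : Finset D.E}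
    (hx : ∀ k ∈ D.rest A' B', x' k = x k) (hy : ∀ k ∈ D.rest A' B', y' k = y k) :
    NW D x' y' A' B' = NW D x y A' B' := by
  unfold NW
  refine Finset.sum_congr rfl fun S _ => Finset.prod_congr rfl fun k hk => ?_
  rw [hx k hk, hy k hk]

/-- Merging two crossings that are parallel after contracting `B`, any weights. PROOF
as `NW_par'`: the ends of `e` and `f` are joined by `B`, and all trees contain `B`; so no tree
contains `e` and `f`, and exchanging `e` and `f` is a bijection. -/
theorem NW_merge (hef : e ≠ f) (he : e ∈ D.rest A B) (hf : f ∈ D.rest A B)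
    (hp : Par (quo D.g B) e f) :
    NW D x y A B = NW D (Function.update x e (x e * y f + y e * x f))
      (Function.update y e (y e * y f)) (insert f A) B := by
  have hsw := gp_swap (x := x) (y := y) hef he hf hp
  have he' := mem_rest.1 he
  have hf' := mem_rest.1 hf
  have h1 : e ∉ insert f A := by
    rw [Finset.mem_insert, not_or]
    exact ⟨hef, he'.1⟩
  have h2 : e ∉ insert f B := by
    rw [Finset.mem_insert, not_or]
    exact ⟨hef, he'.2⟩
  have hz : NW D x y A (insert e (insert f B)) = 0 := by
    unfold NW
    have : D.trees A (insert e (insert f B)) = ∅ := by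
      rw [Finset.eq_empty_iff_forall_notMem]
      intro S hS
      refine gp_no_tree hef hf'.2 hp
        ((Finset.subset_insert f B).trans (Finset.subset_insert e _)) hS ?_
      rw [D.mem_trees] at hS
      exact ⟨hS.1 (Finset.mem_insert_self _ _),
        hS.1 (Finset.mem_insert_of_mem (Finset.mem_insert_self _ _))⟩
    rw [this, Finset.sum_empty]
  have c1 : NW D (Function.update x e (x e * y f + y e * x f))
      (Function.update y e (y e * y f)) (insert e (insert f A)) B =
      NW D x y (insert e (insert f A)) B := by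
    refine gp_congr (fun k hk => ?_) (fun k hk => ?_)
    · rw [mem_rest, Finset.mem_insert] at hk
      exact Function.update_of_ne (fun h => hk.1 (Or.inl h)) _ _
    · rw [mem_rest, Finset.mem_insert] at hk
      exact Function.update_of_ne (fun h => hk.1 (Or.inl h)) _ _
  have c2 : NW D (Function.update x e (x e * y f + y e * x f))
      (Function.update y e (y e * y f)) (insert f A) (insert e B) =
      NW D x y (insert f A) (insert e B) := by
    refine gp_congr (fun k hk => ?_) (fun k hk => ?_)
    · rw [mem_rest, Finset.mem_insert (a := k) (b := e)] at hk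
      exact Function.update_of_ne (fun h => hk.2 (Or.inl h)) _ _
    · rw [mem_rest, Finset.mem_insert (a := k) (b := e)] at hk
      exact Function.update_of_ne (fun h => hk.2 (Or.inl h)) _ _
  rw [NW_split (x := x) (y := y) hf'.1 hf'.2,
    NW_split (x := x) (y := y) (A := A) he'.1 h2, hz,
    NW_split (x := x) (y := y) (B := B) h1 he'.2,
    NW_split (x := Function.update x e (x e * y f + y e * x f))
      (y := Function.update y e (y e * y f)) (B := B) h1 he'.2,
    c1, c2, Function.update_self, Function.update_self, hsw]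
  ring

/-- the same for the other colour -/
theorem NW_merge_dual (hef : e ≠ f) (he : e ∈ D.rest A B) (hf : f ∈ D.rest A B)
    (hp : Par (quo D.h A) e f) :
    NW D x y A B = NW D (Function.update x e (x e * x f))
      (Function.update y e (x e * y f + y e * x f)) A (insert f B) := by
  have he' : e ∈ D.dual.rest B A := by
    rw [D.rest_dual]
    exact he
  have hf' : f ∈ D.dual.rest B A := by
    rw [D.rest_dual]
    exact hf
  have h1 := NW_merge (D := D.dual) (x := y) (y := x) (A := B) (B := A) hef he' hf' hp
  rw [add_comm (y e * x f)] at h1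
  rw [← NW_dual (D := D) (x := x) (y := y) (A := A) (B := B), h1]
  exact NW_dual (D := D) (x := Function.update x e (x e * x f))
    (y := Function.update y e (x e * y f + y e * x f)) (A := A) (B := insert f B)

end

end Pool.Agent.Lib.TWt
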