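import Pool.Agent.Lib.TWt.GenPar
import Pool.Agent.Lib.TWt.GenFib
import Pool.Agent.Lib.TDen.Fin

/-!
# The weights of the remaining crossings
-/

set_option autoImplicit false

namespace Pool.Agent.Lib.TWt

open Real Pool.Agent.Lib.MP_20e20b_gt Pool.Agent.Lib.TDen

/-- `Red D A B`: the crossings outside of `A ∪ B` remain after a sequence of reductions. In each
step two remaining crossings `e`, `f` that meet the same two shaded (unshaded) regions of the
current diagram are replaced by `e` alone: `f` is smoothed so that its shaded (unshaded) regions
are not joined. `A` (`B`) are the crossings smoothed so that the unshaded (shaded) regions are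
joined; the shaded regions of the current diagram are the components of `(V, B)`, the unshaded
ones those of `(F, A)`. -/
inductive Red (D : Diagram) : Finset D.E → Finset D.E → Prop
  | start : Red D ∅ ∅
  | par {A B : Finset D.E} {e f : D.E} : Red D A B → e ≠ f → e ∈ D.rest A B →
      f ∈ D.rest A B → Par (quo D.g B) e f → Red D (insert f A) B
  | ser {A B : Finset D.E} {e f : D.E} : Red D A B → e ≠ f → e ∈ D.rest A B →
      f ∈ D.rest A B → Par (quo D.h A) e f → Red D A (insert f B)

private lemma sum_update {E : Type} [DecidableEq E] (R : Finset E) (c : E → ℕ) {e f : E}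
    (hef : e ≠ f) (he : e ∈ R) (hf : f ∈ R) :
    ∑ k ∈ R.erase f, Function.update c e (c e + c f) k = ∑ k ∈ R, c k := by
  have he' : e ∈ R.erase f := Finset.mem_erase.2 ⟨hef, he⟩
  have h1 := Finset.add_sum_erase R c hf
  have h2 := Finset.add_sum_erase (R.erase f) c he'
  have h3 := Finset.add_sum_erase (R.erase f) (Function.update c e (c e + c f)) he'
  rw [Function.update_self] at h3
  have h4 : ∑ k ∈ (R.erase f).erase e, Function.update c e (c e + c f) k =
      ∑ k ∈ (R.erase f).erase e, c k := by
    refine Finset.sum_congr rfl fun k hk => ?_
    rw [Function.update_of_ne (Finset.ne_of_mem_erase hk)]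
  omega

/-- the weights and sizes of the remaining crossings -/
theorem Red_weights {D : Diagram} {A B : Finset D.E} (h : Red D A B) :
    ∃ (x y : D.E → ℝ) (c : D.E → ℕ), Disjoint A B ∧
      (∀ e, Okk (c e) (x e) (y e)) ∧ ∑ e ∈ D.rest A B, c e = D.crossings ∧
      (D.N ∅ ∅ : ℝ) = NW D x y A B := by
  induction h with
  | start =>
    refine ⟨fun _ => 1, fun _ => 1, fun _ => 1, Finset.disjoint_empty_left _, ?_, ?_, ?_⟩
    · intro e
      unfold Okk
      norm_num [Nat.fib_add_two]
    · rw [Finset.sum_const, fin_rest]
      simp
    · rw [NW_one]
  | @par A B e f _ hef he hf hp ih =>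
    obtain ⟨x, y, c, hd, hO, hs, hN⟩ := ih
    have hf' := TDen.mem_rest.1 hf
    refine ⟨Function.update x e (x e * y f + y e * x f), Function.update y e (y e * y f),
      Function.update c e (c e + c f), ?_, ?_, ?_, ?_⟩
    · rw [Finset.disjoint_insert_left]
      exact ⟨hf'.2, hd⟩
    · intro k
      by_cases hk : k = e
      · subst hk
        rw [Function.update_self, Function.update_self, Function.update_self]
        exact (Okk_merge (hO k) (hO f)).1
      · rw [Function.update_of_ne hk, Function.update_of_ne hk, Function.update_of_ne hk]
        exact hO k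
    · rw [rest_insA, sum_update _ c hef he hf, hs]
    · rw [hN]
      exact NW_merge hef he hf hp
  | @ser A B e f _ hef he hf hp ih =>
    obtain ⟨x, y, c, hd, hO, hs, hN⟩ := ih
    have hf' := TDen.mem_rest.1 hf
    refine ⟨Function.update x e (x e * x f), Function.update y e (x e * y f + y e * x f),
      Function.update c e (c e + c f), ?_, ?_, ?_, ?_⟩
    · rw [Finset.disjoint_insert_right]
      exact ⟨hf'.1, hd⟩
    · intro k
      by_cases hk : k = e
      · subst hk
        rw [Function.update_self, Function.update_self, Function.update_self]
        exact (Okk_merge (hO k) (hO f)).2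
      · rw [Function.update_of_ne hk, Function.update_of_ne hk, Function.update_of_ne hk]
        exact hO k
    · rw [rest_insB, sum_update _ c hef he hf, hs]
    · rw [hN]
      exact NW_merge_dual hef he hf hp

end Pool.Agent.Lib.TWt
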