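import Pool.Agent.Lib.TDisc.FinD
import Pool.Agent.Lib.TWt.GenRed
import Pool.Agent.Lib.TDen.NumD

/-!
# Diagrams that reduce to few crossings: the bound with the constant 1.8212
-/

set_option autoImplicit false

namespace Pool.Agent.Lib.TWt

open Real Pool.Agent.Lib.MP_20e20b_gt Pool.Agent.Lib.TDen

/-- a single crossing, or `x + y ≤ G` -/
def Kt (x y G : ℝ) : Prop :=
  (x = 1 ∧ y = 1 ∧ G = 4553 / 2500) ∨ (0 < x ∧ 0 < y ∧ x + y ≤ G)

private lemma Kt.pos {x y G : ℝ} (h : Kt x y G) : 0 < G := by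
  rcases h with ⟨-, -, h⟩ | ⟨h1, h2, h3⟩
  · rw [h]; norm_num
  · linarith

/-- the number of trees of a minor with `k` crossings is at most `1.8212^k` -/
lemma N_le_pow (D : Diagram) (A B : Finset D.E) (hd : Disjoint A B) :
    (D.N A B : ℝ) ≤ (4553 / 2500 : ℝ) ^ (D.rest A B).card := by
  obtain ⟨k, hk⟩ : ∃ k, (D.rest A B).card = k := ⟨_, rfl⟩
  rw [hk]
  rcases Nat.lt_or_ge k 4 with h4 | h4
  · obtain ⟨j, hj⟩ := D.N_le_choose A B
    rw [hk] at hj
    have h1 := hj.trans (Nat.choose_le_middle j k)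
    interval_cases k
    · have h2 : Nat.choose 0 (0 / 2) = 1 := by decide
      rw [h2] at h1
      have h3 : (D.N A B : ℝ) ≤ 1 := by exact_mod_cast h1
      norm_num
      exact_mod_cast h1
    · have h2 : Nat.choose 1 (1 / 2) = 1 := by decide
      rw [h2] at h1
      have h3 : (D.N A B : ℝ) ≤ 1 := by exact_mod_cast h1
      refine h3.trans ?_
      norm_num
    · have h2 : Nat.choose 2 (2 / 2) = 2 := by decide
      rw [h2] at h1
      have h3 : (D.N A B : ℝ) ≤ 2 := by exact_mod_cast h1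
      refine h3.trans ?_
      norm_num
    · have h2 : Nat.choose 3 (3 / 2) = 3 := by decide
      rw [h2] at h1
      have h3 : (D.N A B : ℝ) ≤ 3 := by exact_mod_cast h1
      refine h3.trans ?_
      norm_num
  · refine (TDisc.N_leD D A B hd k h4 hk).trans ?_
    unfold TDisc.xx
    rw [div_le_iff₀ (by positivity), mul_comm]
    exact mul_le_mul_of_nonneg_left (by norm_num) (by positivity)

/-- PROOF: induction on the number of elements of the rest, splitting a crossing with weights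
different from `(1, 1)` as long as there is one. -/
theorem NW_let (D : Diagram) {x y G : D.E → ℝ} (hK : ∀ e, Kt (x e) (y e) (G e))
    (A B : Finset D.E) (hd : Disjoint A B) :
    NW D x y A B ≤ ∏ e ∈ D.rest A B, G e := by
  obtain ⟨n, hn⟩ : ∃ n, (D.rest A B).card = n := ⟨_, rfl⟩
  induction n using Nat.strong_induction_on generalizing A B with
  | _ n ih =>
    by_cases hall : ∀ e ∈ D.rest A B, x e = 1 ∧ y e = 1 ∧ G e = 4553 / 2500
    · have h1 : NW D x y A B = (D.N A B : ℝ) := by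
        rw [← NW_one]
        unfold NW
        refine Finset.sum_congr rfl fun S _ => Finset.prod_congr rfl fun e he => ?_
        rw [(hall e he).1, (hall e he).2.1]
      have h2 : ∏ e ∈ D.rest A B, G e = (4553 / 2500 : ℝ) ^ (D.rest A B).card := by
        rw [Finset.prod_congr rfl fun e he => (hall e he).2.2, Finset.prod_const]
      rw [h1, h2]
      exact N_le_pow D A B hd
    · push Not at hall
      obtain ⟨e, he, hne⟩ := hall
      obtain ⟨hx, hy, hxy⟩ := (hK e).resolve_left (fun h => hne h.1 h.2.1 h.2.2)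
      have heAB := TDen.mem_rest.1 he
      have hlt : ((D.rest A B).erase e).card < n := by
        rw [← hn]
        exact Finset.card_erase_lt_of_mem he
      have hA := ih _ hlt (insert e A) B
        (Finset.disjoint_insert_left.2 ⟨heAB.2, hd⟩) (by rw [rest_insA])
      have hB := ih _ hlt A (insert e B)
        (Finset.disjoint_insert_right.2 ⟨heAB.1, hd⟩) (by rw [rest_insB])
      rw [rest_insA] at hA
      rw [rest_insB] at hB
      rw [NW_split heAB.1 heAB.2, ← Finset.mul_prod_erase _ _ he]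
      have hP : 0 ≤ ∏ e ∈ (D.rest A B).erase e, G e :=
        Finset.prod_nonneg fun f _ => (hK f).pos.le
      calc y e * NW D x y (insert e A) B + x e * NW D x y A (insert e B)
          ≤ y e * ∏ e ∈ (D.rest A B).erase e, G e + x e * ∏ e ∈ (D.rest A B).erase e, G e :=
            add_le_add (mul_le_mul_of_nonneg_left hA hy.le) (mul_le_mul_of_nonneg_left hB hx.le)
        _ = (x e + y e) * ∏ e ∈ (D.rest A B).erase e, G e := by ring
        _ ≤ G e * ∏ e ∈ (D.rest A B).erase e, G e := mul_le_mul_of_nonneg_right hxy hP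

private lemma fib_growT (n : ℕ) :
    ((Nat.fib (n + 4) : ℕ) : ℝ) ≤ 4553 / 2500 * (1657 / 1000 : ℝ) ^ (n + 1) ∧
    ((Nat.fib (n + 5) : ℕ) : ℝ) ≤ 4553 / 2500 * (1657 / 1000 : ℝ) ^ (n + 2) := by
  induction n with
  | zero =>
    have e1 : Nat.fib (0 + 4) = 3 := by decide
    have e2 : Nat.fib (0 + 5) = 5 := by decide
    rw [e1, e2]
    norm_num
  | succ n ih =>
    obtain ⟨h1, h2⟩ := ih
    refine ⟨by
      rw [show n + 1 + 4 = n + 5 by ring, show n + 1 + 1 = n + 2 by ring]
      exact h2, ?_⟩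
    have e : ((Nat.fib (n + 1 + 5) : ℕ) : ℝ) = Nat.fib (n + 4) + Nat.fib (n + 5) := by
      rw [show n + 1 + 5 = n + 4 + 2 by ring, Nat.fib_add_two]
      push_cast
      rfl
    rw [e]
    have h3 : (0 : ℝ) ≤ (1657 / 1000 : ℝ) ^ (n + 1) := by positivity
    have e2 : (1657 / 1000 : ℝ) ^ (n + 2) = (1657 / 1000 : ℝ) ^ (n + 1) * (1657 / 1000) := by
      rw [show n + 2 = n + 1 + 1 by ring, pow_succ]
    have e3 : (1657 / 1000 : ℝ) ^ (n + 1 + 2) =
        (1657 / 1000 : ℝ) ^ (n + 1) * (1657 / 1000) * (1657 / 1000) := by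
      rw [show n + 1 + 2 = n + 1 + 1 + 1 by ring, pow_succ, pow_succ]
    rw [e2] at h2
    rw [e3]
    nlinarith

/-- PROOF: `c = 1`: `x = y = 1`. `c ≥ 2`: `fib (c + 2) ≤ 1.8212 * 1.657^(c - 1)` by
induction (`1.657^2 ≥ 1.657 + 1`). -/
theorem Okk_Kt {c : ℕ} {x y : ℝ} (h : Okk c x y) :
    Kt x y (4553 / 2500 * (1657 / 1000 : ℝ) ^ (c - 1)) := by
  obtain ⟨hc, hx, hy, a0, a1, a2⟩ := h
  rcases c with _ | _ | n
  · omega
  · have e1 : Nat.fib (0 + 1 + 1) = 1 := by decide
    rw [e1, Nat.cast_one] at a0 a1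
    refine Or.inl ⟨le_antisymm a0 hx, le_antisymm a1 hy, by norm_num⟩
  · refine Or.inr ⟨by linarith, by linarith, ?_⟩
    have h1 := (fib_growT n).1
    rw [show n + 1 + 1 + 2 = n + 4 by ring] at a2
    rw [show n + 1 + 1 - 1 = n + 1 by omega]
    exact a2.trans h1

/-- `1.657^26 ≤ 2^19` -/
private lemma log_genT : Real.log (1657 / 1000) ≤ 0.5066 := by
  have h1 : ((1657 / 1000 : ℝ)) ^ 26 ≤ 2 ^ 19 := by norm_num
  have h2 : Real.log ((1657 / 1000 : ℝ) ^ 26) ≤ Real.log (2 ^ 19) :=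
    Real.log_le_log (by positivity) h1
  rw [Real.log_pow, Real.log_pow] at h2
  push_cast at h2
  have h3 := Real.log_two_lt_d9
  norm_num at h2 h3 ⊢
  linarith

lemma gen_numT {N n : ℕ} (h1 : 1 ≤ N) (h2 : 100 * n ≤ 82 * N) {s : ℝ}
    (hs : 0 < s) (h : s ≤ (4553 / 2500 : ℝ) ^ n * (1657 / 1000) ^ (N - n)) :
    2 * π * Real.log s / N ≤ vOct := by
  have hN1 : (1 : ℝ) ≤ N := by exact_mod_cast h1
  have hN : (0 : ℝ) < N := by linarith
  have htN : n ≤ N := by omega
  have hv := vOct_gt'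
  have hπ := Real.pi_lt_d6
  have hπ0 := Real.pi_pos
  rw [div_le_iff₀ hN]
  have hlog : Real.log s ≤ n * Real.log (4553 / 2500) +
      ((N : ℝ) - n) * Real.log (1657 / 1000) := by
    have h3 := Real.log_le_log hs h
    rw [Real.log_mul (by positivity) (by positivity), Real.log_pow, Real.log_pow,
      Nat.cast_sub htN] at h3
    exact h3
  have ht0 : (0 : ℝ) ≤ n := Nat.cast_nonneg n
  have htR : (n : ℝ) ≤ N := by exact_mod_cast htN
  have h2R : 100 * (n : ℝ) ≤ 82 * N := by exact_mod_cast h2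
  have b1 : (n : ℝ) * (2 * π * Real.log (4553 / 2500)) ≤ n * 3.767 :=
    mul_le_mul_of_nonneg_left TDisc.two_pi_log_deltaD_lt.le ht0
  have b2 : 2 * π * Real.log (1657 / 1000) ≤ 3.1831 := by
    have h4 : 2 * π * Real.log (1657 / 1000) ≤ 2 * π * 0.5066 :=
      mul_le_mul_of_nonneg_left log_genT (by positivity)
    norm_num at h4 hπ ⊢
    linarith
  have b3 : ((N : ℝ) - n) * (2 * π * Real.log (1657 / 1000)) ≤ (N - n) * 3.1831 :=
    mul_le_mul_of_nonneg_left b2 (by linarith)
  have h8 : 2 * π * Real.log s ≤ 2 * π * (n * Real.log (4553 / 2500) +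
      ((N : ℝ) - n) * Real.log (1657 / 1000)) :=
    mul_le_mul_of_nonneg_left hlog (by positivity)
  have h9 : 2 * π * (n * Real.log (4553 / 2500) +
      ((N : ℝ) - n) * Real.log (1657 / 1000)) = n * (2 * π * Real.log (4553 / 2500)) +
      ((N : ℝ) - n) * (2 * π * Real.log (1657 / 1000)) := by ring
  have h11 : (3.6637 : ℝ) * N ≤ vOct * N := mul_le_mul_of_nonneg_right hv.le hN.le
  rw [h9] at h8
  norm_num at h8 b1 b3 h11 ⊢
  linarith

/-- From `Red_weights`, `NW_let`, `Okk_Kt`, `D.coefSum_bracket`. -/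
theorem coefSum_redT {D : Diagram} {A B : Finset D.E} (h : Red D A B) :
    (coefSum D.bracket : ℝ) ≤ (4553 / 2500 : ℝ) ^ (D.rest A B).card *
      (1657 / 1000) ^ (D.crossings - (D.rest A B).card) := by
  classical
  obtain ⟨x, y, c, hd, hO, hsum, hN⟩ := Red_weights h
  have hle := NW_let D (fun e => Okk_Kt (hO e)) A B hd
  have hexp : ∑ e ∈ D.rest A B, (c e - 1) = D.crossings - (D.rest A B).card := by
    have h1 : ∑ e ∈ D.rest A B, (c e - 1) + (D.rest A B).card = ∑ e ∈ D.rest A B, c e := by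
      rw [Finset.card_eq_sum_ones, ← Finset.sum_add_distrib]
      exact Finset.sum_congr rfl fun e _ => Nat.sub_add_cancel (hO e).1
    omega
  have hprod : ∏ e ∈ D.rest A B, (4553 / 2500 * (1657 / 1000 : ℝ) ^ (c e - 1)) =
      (4553 / 2500 : ℝ) ^ (D.rest A B).card *
        (1657 / 1000) ^ (D.crossings - (D.rest A B).card) := by
    rw [Finset.prod_mul_distrib, Finset.prod_const, Finset.prod_pow_eq_pow_sum, hexp]
  have hc : (coefSum D.bracket : ℝ) ≤ (D.N ∅ ∅ : ℝ) := by exact_mod_cast D.coefSum_bracket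
  rw [hN] at hc
  rw [← hprod]
  exact hc.trans hle

/-- the density bound -/
theorem density_redT {D : Diagram} (h1 : 1 ≤ D.crossings) {A B : Finset D.E} (h : Red D A B)
    (hn : 100 * (D.rest A B).card ≤ 82 * D.crossings) :
    2 * π * Real.log D.mu / D.crossings ≤ vOct := by
  rcases (mu_nonneg D).eq_or_lt with h0 | h0
  · rw [← h0, Real.log_zero, mul_zero, zero_div]
    have := vOct_gt
    linarith
  · exact gen_numT h1 hn h0 ((mu_le_coefSum D).trans (coefSum_redT h))

end Pool.Agent.Lib.TWt
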