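import Pool.Agent.Lib.TWt.StepW

/-!
# The bound for weighted trees
-/

set_option autoImplicit false

namespace Pool.Agent.Lib.TWt

open Pool.Agent.Lib.TDen

/-- PROOF: strong induction on the number of elements of the rest. If `N A B = 0`:
`NW_eq_zero`. Otherwise `good_of_N_ne_zero`, `exists_degR_le_three` and `stepW` for `D` or for
`D.dual` (with `x`, `y` exchanged: `NW_dual`, `Kd.swap`, `rest_dual`). See `N_le` in
TDen/Rec2. -/
theorem NW_le (D : Diagram) {x y G : D.E → ℝ} (hK : ∀ e, Kd (x e) (y e) (G e))
    (A B : Finset D.E) (hd : Disjoint A B) :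
    NW D x y A B ≤ ∏ e ∈ D.rest A B, G e := by
  obtain ⟨n, hn⟩ : ∃ n, (D.rest A B).card = n := ⟨_, rfl⟩
  induction n using Nat.strong_induction_on generalizing A B with
  | _ n ih =>
    by_cases h0 : D.N A B = 0
    · rw [NW_eq_zero h0]
      exact Finset.prod_nonneg fun e _ => (hK e).pos.2.2.1.le
    have hG := D.good_of_N_ne_zero h0
    have ih' : ∀ A' B' : Finset D.E, Disjoint A' B' →
        (D.rest A' B').card < (D.rest A B).card →
        NW D x y A' B' ≤ ∏ e ∈ D.rest A' B', G e := by
      intro A' B' hd' hlt
      exact ih _ (by omega) A' B' hd' rfl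
    rcases exists_degR_le_three D hG with ⟨c, hc⟩ | ⟨c, hc⟩
    · exact stepW D hK hG ih' c hc
    · have hs := stepW D.dual (x := (y : D.E → ℝ)) (y := (x : D.E → ℝ)) (G := (G : D.E → ℝ))
        (A := B) (B := A) (fun e => (hK e).swap) hG.dual
        (fun A' B' hd' hr => by
          have e := NW_dual (D := D) (x := x) (y := y) (A := B') (B := A')
          have f := D.rest_dual B' A'
          rw [e]
          rw [f] at hr ⊢
          have f' := D.rest_dual A B
          rw [f'] at hr
          exact ih' B' A' hd'.symm hr)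
        c (by rw [D.rest_dual]; exact hc)
      rw [NW_dual, D.rest_dual] at hs
      exact hs

end Pool.Agent.Lib.TWt
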