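import Pool.Agent.Lib.TWt.Defs

/-!
# The numerical facts of the recursion
-/

set_option autoImplicit false

namespace Pool.Agent.Lib.TWt

/-- two edges (nine cases) -/
lemma num_two {x1 y1 G1 x2 y2 G2 : ℝ} (h1 : Kd x1 y1 G1) (h2 : Kd x2 y2 G2) :
    x1 * G2 + y1 * x2 ≤ G1 * G2 := by
  rcases h1 with ⟨rfl, rfl, rfl⟩ | ⟨rfl, rfl, rfl⟩ | ⟨rfl, rfl, rfl⟩ <;>
    rcases h2 with ⟨rfl, rfl, rfl⟩ | ⟨rfl, rfl, rfl⟩ | ⟨rfl, rfl, rfl⟩ <;> norm_num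

/-- three edges in a given order -/
def Ord (x1 y1 G1 x2 y2 G2 x3 G3 : ℝ) : Prop :=
  x1 * (G2 * G3) + y1 * (x2 * G3) + y1 * (y2 * x3) ≤ G1 * (G2 * G3)

/-- three edges: all single, or all doubled in the graph of shaded regions, or in a suitable
order the simple recursion is good enough (27 cases: `S A A` in the order `A A S`, `S S A` in the
order `A S S`, otherwise the edges with `y = 2` first) -/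
lemma num_three {x1 y1 G1 x2 y2 G2 x3 y3 G3 : ℝ} (h1 : Kd x1 y1 G1) (h2 : Kd x2 y2 G2)
    (h3 : Kd x3 y3 G3) :
    ((x1 = 1 ∧ y1 = 1 ∧ G1 = 3657 / 2000) ∧ (x2 = 1 ∧ y2 = 1 ∧ G2 = 3657 / 2000) ∧
      (x3 = 1 ∧ y3 = 1 ∧ G3 = 3657 / 2000)) ∨
    ((x1 = 2 ∧ y1 = 1 ∧ G1 = 29 / 10) ∧ (x2 = 2 ∧ y2 = 1 ∧ G2 = 29 / 10) ∧
      (x3 = 2 ∧ y3 = 1 ∧ G3 = 29 / 10)) ∨
    Ord x1 y1 G1 x2 y2 G2 x3 G3 ∨ Ord x1 y1 G1 x3 y3 G3 x2 G2 ∨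
    Ord x2 y2 G2 x1 y1 G1 x3 G3 ∨ Ord x2 y2 G2 x3 y3 G3 x1 G1 ∨
    Ord x3 y3 G3 x1 y1 G1 x2 G2 ∨ Ord x3 y3 G3 x2 y2 G2 x1 G1 := by
  unfold Ord
  rcases h1 with ⟨rfl, rfl, rfl⟩ | ⟨rfl, rfl, rfl⟩ | ⟨rfl, rfl, rfl⟩ <;>
    rcases h2 with ⟨rfl, rfl, rfl⟩ | ⟨rfl, rfl, rfl⟩ | ⟨rfl, rfl, rfl⟩ <;>
      rcases h3 with ⟨rfl, rfl, rfl⟩ | ⟨rfl, rfl, rfl⟩ | ⟨rfl, rfl, rfl⟩ <;> norm_num

/-- the optimisation at three doubled edges. PROOF: suppose `6 t + 4 P + 8 r > C G^3`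
(`G = 29/10`). With `t' = 2 t`, `P' = 4 P`, `r' = 8 r`: `3 t' + 2 P' + 3 r' ≤ 6 C G^2`,
`3 t' + P' ≤ 6 C G`, `12 t' r' ≤ P'^2`, `3 t' + P' + r' > C G^3`; so
`r' > C (G^3 - 6 G)`, `3 t' > C (3 G^3 - 6 G^2 - 6 G)`, `P' < C (12 G + 6 G^2 - 3 G^3)` and
`4 (3 G^3 - 6 G^2 - 6 G) (G^3 - 6 G) ≥ (12 G + 6 G^2 - 3 G^3)^2`. See `opt` in TDen/Opt. -/
theorem optA {t P r C : ℝ} (hC : 0 ≤ C) (ht : 0 ≤ t) (hP : 0 ≤ P) (hr : 0 ≤ r)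
    (h1 : 3 * t + 4 * P + 12 * r ≤ 3 * (C * (29 / 10) ^ 2))
    (h2 : 3 * t + 2 * P ≤ 3 * (C * (29 / 10)))
    (h3 : 12 * t * r ≤ P ^ 2) :
    6 * t + 4 * P + 8 * r ≤ C * (29 / 10) ^ 3 := by
  by_contra hcon
  push Not at hcon
  have _ := hr
  have h4 : C * (8845 / 10000) < t := by linarith
  have h5 : C * (8736 / 10000) < r := by linarith
  have h6 : P < C * (302325 / 100000) := by linarith
  have h7 : (C * (8845 / 10000)) * (C * (8736 / 10000)) ≤ t * r := by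
    apply mul_le_mul h4.le h5.le _ ht
    apply mul_nonneg hC
    norm_num
  have h8 : P ^ 2 < (C * (302325 / 100000)) ^ 2 := by
    apply pow_lt_pow_left₀ h6 hP
    norm_num
  have h9 : 0 ≤ C ^ 2 := sq_nonneg C
  nlinarith

end Pool.Agent.Lib.TWt
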