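import Pool.Agent.Lib.TWt.Defs

/-!
# The three-terminal inequality with weights
-/

set_option autoImplicit false

namespace Pool.Agent.Lib.TWt

open Pool.Agent.Lib.TDen Matrix

lemma WF_root {V E : Type} [Fintype V] (g : E → V × V) (x y : E → ℝ) (S : Finset E) (u v : V) :
    WF g x y S {u} = WF g x y S {v} := by
  unfold WF
  rw [forests_root g S u v]

section

variable {V E : Type} [Fintype V] [DecidableEq V] [DecidableEq E]

/-- the weighted Laplace matrix with the rows and columns in `U` replaced by those of the
identity -/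
noncomputable def lapW (g : E → V × V) (w : E → ℝ) (S : Finset E)
    (U : Finset V) : Matrix V V ℝ := fun i j =>
  if i ∈ U ∨ j ∈ U then (if i = j then 1 else 0) else ∑ e ∈ S, w e * inc g e i * inc g e j

omit [Fintype V] [DecidableEq E] in
lemma lapW_eq_KM (g : E → V × V) (w : E → ℝ) (S : Finset E) (U : Finset V) :
    lapW g w S U = TDT.KM g w U S := by
  ext i j
  unfold lapW TDT.KM
  have h0 : ∀ i ∈ U, ∀ e, TDT.uu g U e i = 0 := fun i hi e => by simp [TDT.uu, hi]
  have h1 : ∀ i ∉ U, ∀ e, TDT.uu g U e i = inc g e i := fun i hi e => by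
    simp [TDT.uu, hi, inc]
  by_cases hi : i ∈ U
  · simp only [hi, true_or, if_true, and_true, h0 i hi, mul_zero, zero_mul,
      Finset.sum_const_zero, add_zero]
  · by_cases hj : j ∈ U
    · have hij : i ≠ j := fun h => hi (h ▸ hj)
      simp only [hi, hj, or_true, if_true, and_false, if_false, h0 j hj, mul_zero,
        Finset.sum_const_zero, add_zero, if_neg hij]
    · simp only [hi, hj, or_false, if_false, and_false, zero_add, h1 i hi, h1 j hj]

/-- one more diagonal entry -/
lemma det_diag_addW (g : E → V × V) (w : E → ℝ) (S : Finset E) (U : Finset V) (D : V → ℝ)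
    {u : V} (hu : u ∉ U) (hD : D u = 0) (s : ℝ) :
    (lapW g w S U + diagonal (D + Pi.single u s)).det =
      (lapW g w S U + diagonal D).det + s * (lapW g w S (insert u U) + diagonal D).det := by
  have h1 : lapW g w S U + diagonal (D + Pi.single u s) =
      (lapW g w S U + diagonal D).updateRow u ((lapW g w S U + diagonal D) u +
        s • (Pi.single u 1 : V → ℝ)) := by
    ext i j
    by_cases hi : i = u
    · subst hi
      rw [updateRow_self]
      simp only [Matrix.add_apply, Pi.add_apply, Pi.smul_apply, smul_eq_mul, diagonal_apply]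
      by_cases hj : i = j
      · subst hj; simp; ring
      · have hj' : j ≠ i := fun h => hj h.symm
        simp [hj, hj']
    · rw [updateRow_ne hi]
      simp only [Matrix.add_apply, diagonal_apply, Pi.add_apply]
      by_cases hj : i = j
      · subst hj; simp [hi]
      · simp [hj]
  rw [h1, det_updateRow_add, updateRow_eq_self, det_updateRow_smul]
  congr 2
  rw [← TDT.adj_col]
  congr 1
  ext i j
  by_cases hi : i = u
  · subst hi
    rw [Matrix.updateRow_self]
    simp only [Matrix.add_apply, lapW, Finset.mem_insert_self, true_or, if_true, Pi.single_apply,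
      diagonal_apply, hD]
    by_cases hj : j = i
    · subst hj; simp
    · rw [if_neg hj, if_neg (fun h => hj h.symm)]
      simp
  · rw [Matrix.updateRow_ne hi]
    by_cases hj : j = u
    · subst hj
      rw [Matrix.updateCol_self]
      simp [lapW, hi, Pi.single_apply]
    · rw [Matrix.updateCol_ne hj]
      simp only [Matrix.add_apply, lapW, Finset.mem_insert, hi, hj, false_or]

lemma lapW_posSemidef (g : E → V × V) (w : E → ℝ) (hw : ∀ e, 0 ≤ w e) (S : Finset E) :
    (lapW g w S ∅).PosSemidef := by
  have h : lapW g w S ∅ =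
      (Matrix.of fun (i : V) (e : {e // e ∈ S}) => √(w e.1) * inc g e.1 i) *
      (Matrix.of fun (i : V) (e : {e // e ∈ S}) => √(w e.1) * inc g e.1 i)ᴴ := by
    ext i j
    simp only [lapW, Finset.notMem_empty, or_self, if_false, mul_apply, of_apply,
      conjTranspose_apply, star_trivial]
    rw [← Finset.sum_coe_sort S (fun e => w e * inc g e i * inc g e j)]
    refine Finset.sum_congr rfl fun e _ => ?_
    have := Real.mul_self_sqrt (hw e.1)
    calc w e.1 * inc g e.1 i * inc g e.1 j
        = (√(w e.1) * √(w e.1)) * inc g e.1 i * inc g e.1 j := by rw [this]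
      _ = _ := by ring
  rw [h]
  exact posSemidef_self_mul_conjTranspose _

/-- the weighted sum of the forests -/
noncomputable def FS (g : E → V × V) (w : E → ℝ) (S : Finset E) (U : Finset V) : ℝ :=
  ∑ S' ∈ forests g S U, ∏ e ∈ S', w e

lemma FS_eq_det (g : E → V × V) (w : E → ℝ) (S : Finset E) (U : Finset V) :
    FS g w S U = (lapW g w S U).det := by
  classical
  rw [lapW_eq_KM, TDT.det_eq_TS]
  unfold TDT.TS FS forests
  rw [Finset.sum_filter]
  refine Finset.sum_congr rfl fun B _ => ?_
  have h1 : (B.card + U.card = Fintype.card V ∧ ∀ v, ∃ u ∈ U, Conn g B u v) ↔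
      (B.card = (Uᶜ).card ∧ TDT.Conn g U B) := by
    rw [cut_iff]
    refine and_congr ?_ Iff.rfl
    rw [Finset.card_compl]
    have := Finset.card_le_univ U
    omega
  by_cases h2 : B.card = (Uᶜ).card ∧ TDT.Conn g U B
  · rw [if_pos h2, if_pos (h1.2 h2)]
  · rw [if_neg h2, if_neg (fun h => h2 (h1.1 h))]

lemma WF_eq_FS (g : E → V × V) (x y : E → ℝ) (hy : ∀ e, 0 < y e) (S : Finset E)
    (U : Finset V) :
    WF g x y S U = (∏ e ∈ S, y e) * FS g (fun e => x e / y e) S U := by
  classical
  unfold WF FS
  rw [Finset.mul_sum]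
  refine Finset.sum_congr rfl fun B hB => ?_
  have hBS : B ⊆ S := by
    unfold forests at hB
    exact Finset.mem_powerset.1 (Finset.mem_filter.1 hB).1
  have h1 : ∏ e ∈ B, x e / y e = ∏ e ∈ S, if e ∈ B then x e / y e else 1 := by
    rw [Finset.prod_ite_mem, Finset.inter_eq_right.2 hBS]
  rw [h1, ← Finset.prod_mul_distrib]
  refine Finset.prod_congr rfl fun e _ => ?_
  by_cases he : e ∈ B
  · simp only [he, if_true]
    rw [mul_div_cancel₀]
    exact (hy e).ne'
  · simp [he]

lemma FS_root (g : E → V × V) (w : E → ℝ) (S : Finset E) (u v : V) :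
    FS g w S {u} = FS g w S {v} := by
  unfold FS
  rw [forests_root g S u v]

theorem FS_rayleigh (g : E → V × V) (w : E → ℝ) (hw : ∀ e, 0 ≤ w e) (S : Finset E) {x y z : V}
    (hxy : x ≠ y) (hxz : x ≠ z) (hyz : y ≠ z) :
    12 * FS g w S {x} * FS g w S {x, y, z}
      ≤ (FS g w S {x, y} + FS g w S {x, z} + FS g w S {y, z}) ^ 2 := by
  classical
  have h0 : (lapW g w S ∅).det = 0 := by
    rw [← FS_eq_det]
    unfold FS
    have : forests g S (∅ : Finset V) = ∅ := by
      unfold forests
      rw [Finset.filter_eq_empty_iff]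
      rintro B - ⟨-, h⟩
      obtain ⟨u, hu, -⟩ := h x
      exact absurd hu (Finset.notMem_empty u)
    rw [this, Finset.sum_empty]
  have key : ∀ s : ℝ, (lapW g w S ∅ + s • diagonal (Pi.single x 1 + Pi.single y 1 +
      Pi.single z 1 : V → ℝ)).det =
      ((lapW g w S {x}).det + (lapW g w S {y}).det + (lapW g w S {z}).det) * s +
      ((lapW g w S {x, y}).det + (lapW g w S {x, z}).det + (lapW g w S {y, z}).det) * s ^ 2 +
      (lapW g w S {x, y, z}).det * s ^ 3 := by
    intro s
    have e0 : s • diagonal (Pi.single x 1 + Pi.single y 1 + Pi.single z 1 : V → ℝ) =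
        diagonal (Pi.single x s + Pi.single y s + Pi.single z s) := by
      ext i j
      simp only [Matrix.smul_apply, diagonal_apply, smul_eq_mul, Pi.add_apply, Pi.single_apply]
      by_cases h : i = j
      · subst h
        simp only [if_true]
        split_ifs <;> ring
      · simp [h]
    have hz : ∀ U : Finset V, z ∉ U → (lapW g w S U + diagonal (Pi.single z s)).det =
        (lapW g w S U).det + s * (lapW g w S (insert z U)).det := by
      intro U hU
      have := det_diag_addW g w S U 0 hU rfl s
      simpa using this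
    have hy : ∀ U : Finset V, y ∉ U → z ∉ U →
        (lapW g w S U + diagonal (Pi.single y s + Pi.single z s)).det =
        (lapW g w S U).det + s * (lapW g w S (insert z U)).det +
          s * ((lapW g w S (insert y U)).det + s * (lapW g w S (insert z (insert y U))).det) := by
      intro U hU hU'
      have e2 : (Pi.single y s + Pi.single z s : V → ℝ) = Pi.single z s + Pi.single y s :=
        add_comm _ _
      rw [e2, det_diag_addW g w S U (Pi.single z s) hU
        (by simp [Pi.single_apply, hyz]) s, hz U hU', hz (insert y U) (by simp [hU', hyz.symm])]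
    rw [e0]
    have e1 : (Pi.single x s + Pi.single y s + Pi.single z s : V → ℝ) =
        (Pi.single y s + Pi.single z s) + Pi.single x s := by abel
    rw [e1, det_diag_addW g w S ∅ _ (Finset.notMem_empty x)
      (by simp [Pi.single_apply, hxy, hxz]) s,
      hy ∅ (Finset.notMem_empty y) (Finset.notMem_empty z),
      hy (insert x ∅) (by simp [hxy.symm]) (by simp [hxz.symm]), h0]
    have p1 : (insert z (insert y (∅ : Finset V))) = {y, z} := by
      ext i; simp [or_comm]
    have p2 : (insert z (insert x (∅ : Finset V))) = {x, z} := by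
      ext i; simp [or_comm]
    have p3 : (insert y (insert x (∅ : Finset V))) = {x, y} := by
      ext i; simp [or_comm]
    have p4 : (insert z (insert y (insert x (∅ : Finset V)))) = {x, y, z} := by
      ext i; simp only [Finset.mem_insert, Finset.mem_singleton, Finset.notMem_empty]; tauto
    have p5 : ∀ v : V, insert v (∅ : Finset V) = {v} := fun v => rfl
    rw [p1, p2, p4, p3, p5, p5, p5]
    ring
  have h1 := TD.real_root (lapW g w S ∅) (diagonal (Pi.single x 1 + Pi.single y 1 +
    Pi.single z 1 : V → ℝ)) (lapW_posSemidef g w hw S) (PosSemidef.diagonal (by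
      intro i
      simp only [Pi.zero_apply, Pi.add_apply, Pi.single_apply]
      split_ifs <;> norm_num)) _ _ _ key
  simp only [← FS_eq_det] at h1
  rw [FS_root g w S y x, FS_root g w S z x] at h1
  linarith

theorem WF_rayleigh (g : E → V × V)
    (x y : E → ℝ) (hx : ∀ e, 0 ≤ x e) (hy : ∀ e, 0 < y e) (S : Finset E) {u v w : V}
    (huv : u ≠ v) (huw : u ≠ w) (hvw : v ≠ w) :
    12 * WF g x y S {u} * WF g x y S {u, v, w}
      ≤ (WF g x y S {u, v} + WF g x y S {u, w} + WF g x y S {v, w}) ^ 2 := by
  have h := FS_rayleigh g (fun e => x e / y e) (fun e => div_nonneg (hx e) (hy e).le) S huv huw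
    hvw
  simp only [WF_eq_FS g x y hy S]
  have h2 : 0 ≤ (∏ e ∈ S, y e) ^ 2 := sq_nonneg _
  have h3 := mul_le_mul_of_nonneg_left h h2
  calc _ = (∏ e ∈ S, y e) ^ 2 * (12 * FS g (fun e => x e / y e) S {u} *
        FS g (fun e => x e / y e) S {u, v, w}) := by ring
    _ ≤ _ := h3
    _ = _ := by ring

end

end Pool.Agent.Lib.TWt
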