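import Pool.Agent.Lib.TWt.Basic
import Pool.Agent.Lib.TWt.Ray

/-!
# A component of degree three, with weights
-/

set_option autoImplicit false

namespace Pool.Agent.Lib.TWt

open Pool.Agent.Lib.TDen

private lemma rest_star {D : Diagram} {A B : Finset D.E} {a b d : D.E} {X : Finset D.E}
    (hX : X ⊆ ({a, b, d} : Finset D.E)) :
    D.rest (A ∪ (({a, b, d} : Finset D.E) \ X)) (B ∪ X) = D.rest A B \ {a, b, d} := by
  ext e
  rw [mem_rest, Finset.mem_sdiff, mem_rest, Finset.mem_union, Finset.mem_union, Finset.mem_sdiff]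
  have := @hX e
  tauto

theorem star_countW {D : Diagram} (x y : D.E → ℝ) {A B : Finset D.E} {c : Comp D.g B}
    {a b d : D.E} (h : Star D A B c a b d) :
    ∃ (w : Away c) (out : D.E → Away c), ∀ X ⊆ ({a, b, d} : Finset D.E),
      (Set.InjOn out (X : Set D.E) →
        NW D x y (A ∪ (({a, b, d} : Finset D.E) \ X)) (B ∪ X)
        = WF (away (quo D.g B) c w) x y (D.rest A B \ {a, b, d}) (X.image out)) ∧
      (¬ Set.InjOn out (X : Set D.E) →
        NW D x y (A ∪ (({a, b, d} : Finset D.E) \ X)) (B ∪ X) = 0) := by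
  classical
  have hXr : ({a, b, d} : Finset D.E) ⊆ D.rest A B := by
    intro e he
    simp only [Finset.mem_insert, Finset.mem_singleton] at he
    rcases he with rfl | rfl | rfl
    · exact h.ha
    · exact h.hb
    · exact h.hd
  have hone : ∀ e ∈ ({a, b, d} : Finset D.E), ((quo D.g B e).1 = c ↔ ¬ (quo D.g B e).2 = c) := by
    intro e he
    apply h.one e (hXr he)
    simpa using he
  obtain ⟨w⟩ : Nonempty (Away c) := by
    have h1 := hone a (by simp)
    by_cases h2 : (quo D.g B a).1 = c
    · exact ⟨⟨_, h1.1 h2⟩⟩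
    · exact ⟨⟨_, h2⟩⟩
  let out : D.E → Away c := fun e => if h1 : (quo D.g B e).1 ≠ c then ⟨_, h1⟩ else
    pr c w (quo D.g B e).2
  have hout : ∀ e ∈ ({a, b, d} : Finset D.E),
      quo D.g B e = (c, (out e : Comp D.g B)) ∨ quo D.g B e = ((out e : Comp D.g B), c) := by
    intro e he
    have h1 := hone e he
    by_cases h2 : (quo D.g B e).1 = c
    · left
      have h3 := h1.1 h2
      have : (out e : Comp D.g B) = (quo D.g B e).2 := by
        simp only [out, dif_neg (not_not.2 h2), pr, dif_pos h3]
      rw [this]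
      exact Prod.ext h2 rfl
    · right
      have h3 : (quo D.g B e).2 = c := by
        by_contra h4
        exact h2 (h1.2 h4)
      have : (out e : Comp D.g B) = (quo D.g B e).1 := by
        simp only [out, dif_pos h2]
      rw [this]
      exact Prod.ext rfl h3
  have hR : ∀ e ∈ D.rest A B \ {a, b, d}, (quo D.g B e).1 ≠ c ∧ (quo D.g B e).2 ≠ c := by
    intro e he
    simp only [Finset.mem_sdiff, Finset.mem_insert, Finset.mem_singleton, not_or] at he
    exact h.none e he.1 he.2.1 he.2.2.1 he.2.2.2
  refine ⟨w, out, ?_⟩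
  intro X hX
  have key : ∀ S' : Finset D.E, S' ⊆ D.rest A B \ {a, b, d} →
      (((B ∪ X ∪ S').card + 1 = Fintype.card D.V ∧ ∀ u v, Conn D.g (B ∪ X ∪ S') u v) ↔
      (Set.InjOn out (X : Set D.E) ∧ S' ∈ forests (away (quo D.g B) c w)
        (D.rest A B \ {a, b, d}) (X.image out))) := by
    intro S' hS'
    rw [← star_forest (quo D.g B) c w out (fun e he => hout e (hX he)) hR hS']
    apply tree_transfer h.good (hX.trans hXr) (hS'.trans Finset.sdiff_subset)
    rw [Finset.disjoint_left]
    intro e he he'
    exact (Finset.mem_sdiff.1 (hS' he')).2 (hX he)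
  -- the rest of a tree
  have hin : ∀ S ∈ D.trees (A ∪ (({a, b, d} : Finset D.E) \ X)) (B ∪ X),
      S \ (B ∪ X) ⊆ D.rest A B \ {a, b, d} ∧ B ∪ X ∪ (S \ (B ∪ X)) = S := by
    intro S hS
    obtain ⟨h1, h2, -, -⟩ := mem_trees_iff.1 hS
    constructor
    · intro e he
      rw [Finset.mem_sdiff, Finset.mem_union, not_or] at he
      obtain ⟨he1, he2, he3⟩ := he
      have h3 : e ∉ A ∪ (({a, b, d} : Finset D.E) \ X) := fun h4 =>
        Finset.disjoint_left.1 h2 h4 he1
      rw [Finset.mem_union, not_or, Finset.mem_sdiff, not_and, not_not] at h3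
      rw [Finset.mem_sdiff, mem_rest]
      exact ⟨⟨h3.1, he2⟩, fun h4 => he3 (h3.2 h4)⟩
    · exact Finset.union_sdiff_of_subset h1
  constructor
  · intro hinj
    unfold NW WF
    rw [rest_star hX]
    refine Finset.sum_nbij' (fun S => S \ (B ∪ X)) (fun S' => B ∪ X ∪ S') ?_ ?_ ?_ ?_ ?_
    · intro S hS
      obtain ⟨h1, h2⟩ := hin S hS
      have h3 := mem_trees_iff.1 hS
      have h4 := (key _ h1).1 (by rw [h2]; exact ⟨h3.2.2.1, h3.2.2.2⟩)
      exact h4.2
    · intro S' hS'
      have h0 : S' ⊆ D.rest A B \ {a, b, d} := by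
        have := hS'
        unfold forests at this
        exact Finset.mem_powerset.1 (Finset.mem_filter.1 this).1
      have h4 := (key S' h0).2 ⟨hinj, hS'⟩
      apply mem_trees_iff.2
      refine ⟨Finset.subset_union_left, ?_, h4.1, h4.2⟩
      rw [Finset.disjoint_left]
      intro e he he'
      have hb : ∀ e ∈ B, e ∉ A := fun e hB hA => Finset.disjoint_left.1 h.good.1 hA hB
      simp only [Finset.mem_union] at he he'
      rcases he with he | he
      · rcases he' with (h5 | h5) | h5
        · exact hb e h5 he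
        · exact (mem_rest.1 (hXr (hX h5))).1 he
        · exact (mem_rest.1 (Finset.sdiff_subset (h0 h5))).1 he
      · rw [Finset.mem_sdiff] at he
        rcases he' with (h5 | h5) | h5
        · exact (mem_rest.1 (hXr he.1)).2 h5
        · exact he.2 h5
        · exact (Finset.mem_sdiff.1 (h0 h5)).2 he.1
    · intro S hS
      exact (hin S hS).2
    · intro S' hS'
      have h0 : S' ⊆ D.rest A B \ {a, b, d} := by
        have := hS'
        unfold forests at this
        exact Finset.mem_powerset.1 (Finset.mem_filter.1 this).1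
      show (B ∪ X ∪ S') \ (B ∪ X) = S'
      rw [Finset.union_sdiff_left]
      apply Finset.sdiff_eq_self_of_disjoint
      rw [Finset.disjoint_left]
      intro e he he'
      have h1 := Finset.mem_sdiff.1 (h0 he)
      rcases Finset.mem_union.1 he' with h5 | h5
      · exact (mem_rest.1 h1.1).2 h5
      · exact h1.2 (hX h5)
    · intro S hS
      refine Finset.prod_congr rfl fun e he => ?_
      rw [Finset.mem_sdiff] at he
      have h1 : (e ∈ S \ (B ∪ X)) ↔ e ∈ S := by
        rw [Finset.mem_sdiff, Finset.mem_union]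
        constructor
        · exact fun h => h.1
        · intro h2
          refine ⟨h2, ?_⟩
          rintro (h3 | h3)
          · exact (mem_rest.1 he.1).2 h3
          · exact he.2 (hX h3)
      by_cases h2 : e ∈ S
      · rw [if_pos h2, if_pos (h1.2 h2)]
      · rw [if_neg h2, if_neg (fun h3 => h2 (h1.1 h3))]
  · intro hinj
    unfold NW
    have : D.trees (A ∪ (({a, b, d} : Finset D.E) \ X)) (B ∪ X) = ∅ := by
      rw [Finset.eq_empty_iff_forall_notMem]
      intro S hS
      obtain ⟨h1, h2⟩ := hin S hS
      have h3 := mem_trees_iff.1 hS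
      exact hinj ((key _ h1).1 (by rw [h2]; exact ⟨h3.2.2.1, h3.2.2.2⟩)).1
    rw [this, Finset.sum_empty]

theorem star_singleW {D : Diagram} (x y : D.E → ℝ) {A B : Finset D.E} {c : Comp D.g B}
    {a b d : D.E} (h : Star D A B c a b d) :
    NW D x y (insert b (insert d A)) (insert a B) =
      NW D x y (insert a (insert d A)) (insert b B) ∧
    NW D x y (insert b (insert d A)) (insert a B) =
      NW D x y (insert a (insert b A)) (insert d B) := by
  obtain ⟨w, out, H⟩ := star_countW x y h
  have ha := (H {a} (by simp)).1 (by simp)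
  have hb := (H {b} (by simp)).1 (by simp)
  have hd := (H {d} (by simp)).1 (by simp)
  rw [t2_a h.ab h.ad, t2_ua, Finset.image_singleton] at ha
  rw [t2_b h.ab h.bd, t2_ua, Finset.image_singleton] at hb
  rw [t2_d h.ad h.bd, t2_ua, Finset.image_singleton] at hd
  rw [ha, hb, hd]
  exact ⟨WF_root _ _ _ _ _ _, WF_root _ _ _ _ _ _⟩

theorem star_rayleighW {D : Diagram} (x y : D.E → ℝ) (hx : ∀ e, 0 ≤ x e) (hy : ∀ e, 0 < y e)
    {A B : Finset D.E} {c : Comp D.g B} {a b d : D.E} (h : Star D A B c a b d) :
    12 * NW D x y (insert b (insert d A)) (insert a B) *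
        NW D x y A (insert a (insert b (insert d B)))
      ≤ (NW D x y (insert d A) (insert a (insert b B)) +
        NW D x y (insert b A) (insert a (insert d B))
        + NW D x y (insert a A) (insert b (insert d B))) ^ 2 := by
  obtain ⟨w, out, H⟩ := star_countW x y h
  have h3 := H {a, b, d} (Finset.Subset.refl _)
  rw [t2_abd, t2_u3] at h3
  by_cases hinj : Set.InjOn out (({a, b, d} : Finset D.E) : Set D.E)
  · have hA : a ∈ (({a, b, d} : Finset D.E) : Set D.E) := by simp
    have hB : b ∈ (({a, b, d} : Finset D.E) : Set D.E) := by simp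
    have hD : d ∈ (({a, b, d} : Finset D.E) : Set D.E) := by simp
    have nab : out a ≠ out b := fun e => h.ab (hinj hA hB e)
    have nad : out a ≠ out d := fun e => h.ad (hinj hA hD e)
    have nbd : out b ≠ out d := fun e => h.bd (hinj hB hD e)
    have e3 := h3.1 hinj
    have ea := (H {a} (by simp)).1 (by simp)
    have sab : ({a, b} : Finset D.E) ⊆ {a, b, d} := by
      intro x
      simp only [Finset.mem_insert, Finset.mem_singleton]
      tauto
    have sad : ({a, d} : Finset D.E) ⊆ {a, b, d} := by
      intro x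
      simp only [Finset.mem_insert, Finset.mem_singleton]
      tauto
    have sbd : ({b, d} : Finset D.E) ⊆ {a, b, d} := by
      intro x
      simp only [Finset.mem_insert, Finset.mem_singleton]
      tauto
    have eab := (H {a, b} sab).1 (hinj.mono (by exact_mod_cast sab))
    have ead := (H {a, d} sad).1 (hinj.mono (by exact_mod_cast sad))
    have ebd := (H {b, d} sbd).1 (hinj.mono (by exact_mod_cast sbd))
    rw [t2_a h.ab h.ad, t2_ua, Finset.image_singleton] at ea
    rw [t2_ab h.ad h.bd, t2_u2, Finset.image_insert, Finset.image_singleton] at eab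
    rw [t2_ad h.ab h.bd, t2_u2, Finset.image_insert, Finset.image_singleton] at ead
    rw [t2_bd h.ab h.ad, t2_u2, Finset.image_insert, Finset.image_singleton] at ebd
    rw [Finset.image_insert, Finset.image_insert, Finset.image_singleton] at e3
    rw [ea, e3, eab, ead, ebd]
    exact WF_rayleigh _ _ _ hx hy _ nab nad nbd
  · rw [h3.2 hinj, mul_zero]
    positivity

end Pool.Agent.Lib.TWt
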