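import Pool.Agent.Lib.TWt.Star
import Pool.Agent.Lib.TWt.NumOne

/-!
# The simple recursion for three edges
-/

set_option autoImplicit false

namespace Pool.Agent.Lib.TWt

open Pool.Agent.Lib.TDen

private lemma so_mem_rest {D : Diagram} {A B : Finset D.E} {e : D.E} :
    e ∈ D.rest A B ↔ e ∉ A ∧ e ∉ B := by
  unfold Diagram.rest
  rw [Finset.mem_compl, Finset.mem_union, not_or]

/-- the simple recursion for three edges in a given order. `X` are the edges of the cut. PROOF:
`NW_split` for `a`, then `b`, then `d`; the last term vanishes by `h0`; the three terms that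
remain have by `ih` at most the values `x a * (W / G a)`, `y a * x b * (W / (G a * G b))`,
`y a * y b * x d * (W / (G a * G b * G d))`, `W` the product of `G` over the rest. -/
theorem step_ord (D : Diagram) {x y G : D.E → ℝ} (hK : ∀ e, Kd (x e) (y e) (G e))
    {A B : Finset D.E} (hd : Disjoint A B)
    (ih : ∀ A' B' : Finset D.E, Disjoint A' B' →
      (D.rest A' B').card < (D.rest A B).card → NW D x y A' B' ≤ ∏ e ∈ D.rest A' B', G e)
    {a b d : D.E} (hab : a ≠ b) (had : a ≠ d) (hbd : b ≠ d) (ha : a ∈ D.rest A B)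
    (hb : b ∈ D.rest A B) (hd' : d ∈ D.rest A B)
    (h0 : NW D x y (insert d (insert b (insert a A))) B = 0)
    (ho : Ord (x a) (y a) (G a) (x b) (y b) (G b) (x d) (G d)) :
    NW D x y A B ≤ ∏ e ∈ D.rest A B, G e := by
  obtain ⟨xa, ya, Ga, -, -⟩ := (hK a).pos
  obtain ⟨xb, yb, Gb, -, -⟩ := (hK b).pos
  obtain ⟨xd, yd, Gd, -, -⟩ := (hK d).pos
  obtain ⟨aA, aB⟩ := so_mem_rest.1 ha
  obtain ⟨bA, bB⟩ := so_mem_rest.1 hb
  obtain ⟨dA, dB⟩ := so_mem_rest.1 hd'
  -- memberships
  have hb1 : b ∈ (D.rest A B).erase a := Finset.mem_erase.2 ⟨hab.symm, hb⟩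
  have hd1 : d ∈ (D.rest A B).erase a := Finset.mem_erase.2 ⟨had.symm, hd'⟩
  have hd2 : d ∈ ((D.rest A B).erase a).erase b := Finset.mem_erase.2 ⟨hbd.symm, hd1⟩
  -- the product
  have p1 : ∏ e ∈ D.rest A B, G e = G a * ∏ e ∈ (D.rest A B).erase a, G e :=
    (Finset.mul_prod_erase _ _ ha).symm
  have p2 : ∏ e ∈ (D.rest A B).erase a, G e
      = G b * ∏ e ∈ ((D.rest A B).erase a).erase b, G e :=
    (Finset.mul_prod_erase _ _ hb1).symm
  have p3 : ∏ e ∈ ((D.rest A B).erase a).erase b, G e
      = G d * ∏ e ∈ (((D.rest A B).erase a).erase b).erase d, G e :=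
    (Finset.mul_prod_erase _ _ hd2).symm
  set Q : ℝ := ∏ e ∈ (((D.rest A B).erase a).erase b).erase d, G e with hQ
  have hQ0 : 0 ≤ Q := Finset.prod_nonneg fun e _ => (hK e).pos.2.2.1.le
  -- the cardinalities
  have c1 : ((D.rest A B).erase a).card < (D.rest A B).card :=
    Finset.card_lt_card (Finset.erase_ssubset ha)
  have c2 : (((D.rest A B).erase a).erase b).card < ((D.rest A B).erase a).card :=
    Finset.card_lt_card (Finset.erase_ssubset hb1)
  have c3 : ((((D.rest A B).erase a).erase b).erase d).card
      < (((D.rest A B).erase a).erase b).card :=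
    Finset.card_lt_card (Finset.erase_ssubset hd2)
  -- the three terms
  have b1 : NW D x y A (insert a B) ≤ G b * (G d * Q) := by
    have h := ih A (insert a B) (Finset.disjoint_insert_right.2 ⟨aA, hd⟩)
      (by rw [rest_insB]; exact c1)
    rw [rest_insB, p2, p3] at h
    exact h
  have b2 : NW D x y (insert a A) (insert b B) ≤ G d * Q := by
    have h := ih (insert a A) (insert b B)
      (by
        rw [Finset.disjoint_insert_right, Finset.disjoint_insert_left, Finset.mem_insert, not_or]
        exact ⟨⟨hab.symm, bA⟩, aB, hd⟩)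
      (by rw [rest_insB, rest_insA]; exact c2.trans c1)
    rw [rest_insB, rest_insA, p3] at h
    exact h
  have b3 : NW D x y (insert b (insert a A)) (insert d B) ≤ Q := by
    have h := ih (insert b (insert a A)) (insert d B)
      (by
        rw [Finset.disjoint_insert_right, Finset.disjoint_insert_left,
          Finset.disjoint_insert_left, Finset.mem_insert, Finset.mem_insert, not_or, not_or]
        exact ⟨⟨hbd.symm, had.symm, dA⟩, bB, aB, hd⟩)
      (by rw [rest_insB, rest_insA, rest_insA]; exact (c3.trans c2).trans c1)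
    rw [rest_insB, rest_insA, rest_insA] at h
    exact h
  -- the splittings
  have s1 : NW D x y A B = y a * NW D x y (insert a A) B + x a * NW D x y A (insert a B) :=
    NW_split aA aB
  have s2 : NW D x y (insert a A) B = y b * NW D x y (insert b (insert a A)) B
      + x b * NW D x y (insert a A) (insert b B) :=
    NW_split (by rw [Finset.mem_insert, not_or]; exact ⟨hab.symm, bA⟩) bB
  have s3 : NW D x y (insert b (insert a A)) B
      = y d * NW D x y (insert d (insert b (insert a A))) B
      + x d * NW D x y (insert b (insert a A)) (insert d B) :=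
    NW_split (by
      rw [Finset.mem_insert, Finset.mem_insert, not_or, not_or]
      exact ⟨hbd.symm, had.symm, dA⟩) dB
  rw [h0, mul_zero, zero_add] at s3
  rw [s1, s2, s3, p1, p2, p3]
  unfold Ord at ho
  calc y a * (y b * (x d * NW D x y (insert b (insert a A)) (insert d B))
          + x b * NW D x y (insert a A) (insert b B)) + x a * NW D x y A (insert a B)
      ≤ y a * (y b * (x d * Q) + x b * (G d * Q)) + x a * (G b * (G d * Q)) := by
        gcongr
    _ = (x a * (G b * G d) + y a * (x b * G d) + y a * (y b * x d)) * Q := by ring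
    _ ≤ (G a * (G b * G d)) * Q := mul_le_mul_of_nonneg_right ho hQ0
    _ = G a * (G b * (G d * Q)) := by ring

end Pool.Agent.Lib.TWt
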