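import Pool.Agent.Lib.TWt.Star
import Pool.Agent.Lib.TWt.NumOne

/-!
# The step at three edges with the same weights
-/

set_option autoImplicit false

namespace Pool.Agent.Lib.TWt

open Pool.Agent.Lib.TDen

/-- the seven kinds of trees, with the weights `(t, 1)` at the three edges; `C` is the product of
the growth factors over the other edges of the rest -/
private lemma star_parts (D : Diagram) {x y G : D.E → ℝ} (hK : ∀ e, Kd (x e) (y e) (G e))
    {A B : Finset D.E} (hd : Disjoint A B)
    (ih : ∀ A' B' : Finset D.E, Disjoint A' B' →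
      (D.rest A' B').card < (D.rest A B).card → NW D x y A' B' ≤ ∏ e ∈ D.rest A' B', G e)
    {c : Comp D.g B} {a b d : D.E} (hS : Star D A B c a b d)
    (h0 : NW D x y (insert d (insert b (insert a A))) B = 0) {t γ : ℝ}
    (hxa : x a = t) (hxb : x b = t) (hxd : x d = t)
    (hya : y a = 1) (hyb : y b = 1) (hyd : y d = 1)
    (hGa : G a = γ) (hGb : G b = γ) (hGd : G d = γ) :
    ∃ C u P r : ℝ, 0 ≤ C ∧ 0 ≤ u ∧ 0 ≤ P ∧ 0 ≤ r ∧
      NW D x y A B = 3 * t * u + t ^ 2 * P + t ^ 3 * r ∧
      (∏ e ∈ D.rest A B, G e) = C * γ ^ 3 ∧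
      3 * u + 2 * t * P + 3 * t ^ 2 * r ≤ 3 * (C * γ ^ 2) ∧
      3 * u + t * P ≤ 3 * (C * γ) ∧
      12 * u * r ≤ P ^ 2 := by
  classical
  have hab := hS.ab
  have had := hS.ad
  have hbd := hS.bd
  have har := hS.ha
  have hbr := hS.hb
  have hdr := hS.hd
  have hx0 : ∀ e, 0 ≤ x e := fun e => (hK e).pos.1.le
  have hy0 : ∀ e, 0 ≤ y e := fun e => (hK e).pos.2.1.le
  have hy1 : ∀ e, 0 < y e := fun e => (hK e).pos.2.1
  have hG0 : ∀ e, 0 ≤ G e := fun e => (hK e).pos.2.2.1.le
  have nA : ∀ e ∈ D.rest A B, e ∉ A := fun e he => (mem_rest.1 he).1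
  have nB : ∀ e ∈ D.rest A B, e ∉ B := fun e he => (mem_rest.1 he).2
  have aA := nA a har
  have aB := nB a har
  have bA := nA b hbr
  have bB := nB b hbr
  have dA := nA d hdr
  have dB := nB d hdr
  -- the product over the rest
  set R := D.rest A B with hR
  set C : ℝ := ∏ e ∈ ((R.erase a).erase b).erase d, G e with hC
  have hbR' : b ∈ R.erase a := Finset.mem_erase.2 ⟨hab.symm, hbr⟩
  have hdR' : d ∈ (R.erase a).erase b :=
    Finset.mem_erase.2 ⟨hbd.symm, Finset.mem_erase.2 ⟨had.symm, hdr⟩⟩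
  have p1 : γ * (∏ e ∈ R.erase a, G e) = ∏ e ∈ R, G e := by
    rw [← hGa]; exact Finset.mul_prod_erase R G har
  have p2 : γ * (∏ e ∈ (R.erase a).erase b, G e) = ∏ e ∈ R.erase a, G e := by
    rw [← hGb]; exact Finset.mul_prod_erase (R.erase a) G hbR'
  have p3 : γ * C = ∏ e ∈ (R.erase a).erase b, G e := by
    rw [← hGd]; exact Finset.mul_prod_erase ((R.erase a).erase b) G hdR'
  have hγ : 0 < γ := by rw [← hGa]; exact (hK a).pos.2.2.1
  have hprod : ∏ e ∈ R, G e = C * γ ^ 3 := by
    rw [← p1, ← p2, ← p3]; ring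
  have q1 : ∀ e ∈ R, G e = γ → ∏ f ∈ R.erase e, G f = C * γ ^ 2 := by
    intro e he hGe
    have h1 := Finset.mul_prod_erase R G he
    rw [hGe, hprod] at h1
    have h2 : γ * (∏ f ∈ R.erase e, G f) = γ * (C * γ ^ 2) := by rw [h1]; ring
    exact mul_left_cancel₀ hγ.ne' h2
  have q2 : ∀ e ∈ R, ∀ f ∈ R, f ≠ e → G e = γ → G f = γ →
      ∏ k ∈ (R.erase e).erase f, G k = C * γ := by
    intro e he f hf hfe hGe hGf
    have h1 := Finset.mul_prod_erase (R.erase e) G (Finset.mem_erase.2 ⟨hfe, hf⟩)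
    rw [hGf, q1 e he hGe] at h1
    have h2 : γ * (∏ k ∈ (R.erase e).erase f, G k) = γ * (C * γ) := by rw [h1]; ring
    exact mul_left_cancel₀ hγ.ne' h2
  -- the bounds
  have bR : ∀ e ∈ R, G e = γ → NW D x y A (insert e B) ≤ C * γ ^ 2 := by
    intro e he hGe
    have h1 := ih A (insert e B) (by
      rw [Finset.disjoint_insert_right]
      exact ⟨nA e he, hd⟩) (by
      rw [rest_insB]
      exact Finset.card_erase_lt_of_mem he)
    rw [rest_insB] at h1
    rw [← q1 e he hGe]
    exact h1
  have bLR : ∀ e ∈ R, ∀ f ∈ R, f ≠ e → G e = γ → G f = γ →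
      NW D x y (insert e A) (insert f B) ≤ C * γ := by
    intro e he f hf hfe hGe hGf
    have hR' : D.rest (insert e A) (insert f B) = (R.erase e).erase f := by
      rw [rest_insB, rest_insA]
    have h1 := ih (insert e A) (insert f B) (by
      rw [Finset.disjoint_insert_right, Finset.disjoint_insert_left, Finset.mem_insert, not_or]
      exact ⟨⟨hfe, nA f hf⟩, nB e he, hd⟩) (by
      rw [hR']
      exact lt_of_le_of_lt (Finset.card_le_card (Finset.erase_subset _ _))
        (Finset.card_erase_lt_of_mem he))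
    rw [hR', q2 e he f hf hfe hGe hGf] at h1
    exact h1
  have sp : ∀ (A' B' : Finset D.E) (e : D.E), e ∉ A' → e ∉ B' →
      NW D x y A' B' = y e * NW D x y (insert e A') B' + x e * NW D x y A' (insert e B') :=
    fun A' B' e h h' => NW_split h h'
  have hr := star_rayleighW x y hx0 hy1 hS
  obtain ⟨hs1, hs2⟩ := star_singleW x y hS
  have e1 := sp A B a aA aB
  have e2 := sp (insert a A) B b (by simp [hab.symm, bA]) bB
  have e3 := sp (insert b (insert a A)) B d (by simp [had.symm, hbd.symm, dA]) dB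
  -- the trees with `a`
  have f1 := sp A (insert a B) b bA (by simp [hab.symm, bB])
  have f2 := sp (insert b A) (insert a B) d (by simp [hbd.symm, dA]) (by simp [had.symm, dB])
  have f3 := sp A (insert b (insert a B)) d dA (by simp [hbd.symm, had.symm, dB])
  -- the trees with `b`
  have g1 := sp A (insert b B) a aA (by simp [hab, aB])
  have g2 := sp (insert a A) (insert b B) d (by simp [had.symm, dA]) (by simp [hbd.symm, dB])
  -- the trees with `d`
  have k1 := sp A (insert d B) a aA (by simp [had, aB])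
  have k2 := sp (insert a A) (insert d B) b (by simp [hab.symm, bA]) (by simp [hbd, bB])
  have k3 := sp A (insert a (insert d B)) b bA (by simp [hab.symm, hbd, bB])
  -- two edges fixed
  have l1 := sp (insert d A) (insert a B) b (by simp [hbd, bA]) (by simp [hab.symm, bB])
  have l2 := sp (insert b A) (insert d B) a (by simp [hab, aA]) (by simp [had, aB])
  have c1 : (insert d (insert b A) : Finset D.E) = insert b (insert d A) :=
    Finset.insert_comm _ _ _
  have c2 : (insert d (insert a A) : Finset D.E) = insert a (insert d A) :=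
    Finset.insert_comm _ _ _
  have c3 : (insert b (insert a A) : Finset D.E) = insert a (insert b A) :=
    Finset.insert_comm _ _ _
  have c4 : (insert b (insert a B) : Finset D.E) = insert a (insert b B) :=
    Finset.insert_comm _ _ _
  have c5 : (insert d (insert a B) : Finset D.E) = insert a (insert d B) :=
    Finset.insert_comm _ _ _
  have c6 : (insert d (insert b B) : Finset D.E) = insert b (insert d B) :=
    Finset.insert_comm _ _ _
  have c7 : (insert d (insert a (insert b B)) : Finset D.E) =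
      insert a (insert b (insert d B)) := by
    rw [Finset.insert_comm d a, c6]
  have c8 : (insert b (insert a (insert d B)) : Finset D.E) =
      insert a (insert b (insert d B)) := Finset.insert_comm _ _ _
  rw [c3] at e2 h0 e3
  rw [c4] at f1 f3 l1
  rw [c1, c5] at f2
  rw [c7] at f3
  rw [c2, c6] at g2
  rw [c3] at k2
  rw [c8] at k3
  have m1 := bR a har hGa
  have m2 := bR b hbr hGb
  have m3 := bR d hdr hGd
  have m4 := bLR d hdr a har had hGd hGa
  have m5 := bLR a har b hbr hab.symm hGa hGb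
  have m6 := bLR b hbr d hdr hbd.symm hGb hGd
  rw [hxa, hya] at e1 g1 k1 l2
  rw [hxb, hyb] at e2 f1 k2 k3 l1
  rw [hxd, hyd] at e3 f2 f3 g2
  rw [h0] at e3
  have na0 : 0 ≤ NW D x y (insert b (insert d A)) (insert a B) := NW_nonneg hx0 hy0
  have nab0 : 0 ≤ NW D x y (insert d A) (insert a (insert b B)) := NW_nonneg hx0 hy0
  have nad0 : 0 ≤ NW D x y (insert b A) (insert a (insert d B)) := NW_nonneg hx0 hy0
  have nbd0 : 0 ≤ NW D x y (insert a A) (insert b (insert d B)) := NW_nonneg hx0 hy0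
  have nabd0 : 0 ≤ NW D x y A (insert a (insert b (insert d B))) := NW_nonneg hx0 hy0
  set na := NW D x y (insert b (insert d A)) (insert a B)
  set nb := NW D x y (insert a (insert d A)) (insert b B)
  set nd := NW D x y (insert a (insert b A)) (insert d B)
  set nab := NW D x y (insert d A) (insert a (insert b B))
  set nad := NW D x y (insert b A) (insert a (insert d B))
  set nbd := NW D x y (insert a A) (insert b (insert d B))
  set nabd := NW D x y A (insert a (insert b (insert d B)))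
  have r1 : NW D x y A (insert a B) = na + t * nad + t * nab + t ^ 2 * nabd := by
    rw [f1, f2, f3]; ring
  have r2 : NW D x y A (insert b B) = nb + t * nbd + t * nab + t ^ 2 * nabd := by
    rw [g1, g2, f3]; ring
  have r3 : NW D x y A (insert d B) = nd + t * nbd + t * nad + t ^ 2 * nabd := by
    rw [k1, k2, k3]; ring
  have r4 : NW D x y (insert d A) (insert a B) = na + t * nab := by rw [l1]; ring
  have r5 : NW D x y (insert a A) (insert b B) = nb + t * nbd := by rw [g2]; ring
  have r6 : NW D x y (insert b A) (insert d B) = nd + t * nad := by rw [l2]; ring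
  have r7 : NW D x y A B = t * (na + nb + nd) + t ^ 2 * (nab + nad + nbd) + t ^ 3 * nabd := by
    rw [e1, e2, e3, r1, r5]; ring
  rw [r1] at m1
  rw [r2] at m2
  rw [r3] at m3
  rw [r4] at m4
  rw [r5] at m5
  rw [r6] at m6
  refine ⟨C, na, nab + nad + nbd, nabd, ?_, na0, by positivity, nabd0, ?_, hprod, ?_, ?_, hr⟩
  · exact Finset.prod_nonneg fun e _ => hG0 e
  · rw [r7, ← hs1, ← hs2]; ring
  · rw [← hs1] at m2
    rw [← hs2] at m3
    linarith
  · rw [← hs1] at m5
    rw [← hs2] at m6
    linarith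

theorem step_star (D : Diagram) {x y G : D.E → ℝ} (hK : ∀ e, Kd (x e) (y e) (G e))
    {A B : Finset D.E} (hd : Disjoint A B)
    (ih : ∀ A' B' : Finset D.E, Disjoint A' B' →
      (D.rest A' B').card < (D.rest A B).card → NW D x y A' B' ≤ ∏ e ∈ D.rest A' B', G e)
    {c : Comp D.g B} {a b d : D.E} (hS : Star D A B c a b d)
    (h0 : NW D x y (insert d (insert b (insert a A))) B = 0)
    (hv : ((x a = 1 ∧ y a = 1 ∧ G a = 3657 / 2000) ∧ (x b = 1 ∧ y b = 1 ∧ G b = 3657 / 2000) ∧
      (x d = 1 ∧ y d = 1 ∧ G d = 3657 / 2000)) ∨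
    ((x a = 2 ∧ y a = 1 ∧ G a = 29 / 10) ∧ (x b = 2 ∧ y b = 1 ∧ G b = 29 / 10) ∧
      (x d = 2 ∧ y d = 1 ∧ G d = 29 / 10))) :
    NW D x y A B ≤ ∏ e ∈ D.rest A B, G e := by
  obtain ⟨⟨a1, a2, a3⟩, ⟨b1, b2, b3⟩, d1, d2, d3⟩ | ⟨⟨a1, a2, a3⟩, ⟨b1, b2, b3⟩, d1, d2, d3⟩ := hv
  · obtain ⟨C, u, P, r, hC, hu, hP, hr, e1, e2, m1, m2, m3⟩ :=
      star_parts D hK hd ih hS h0 a1 b1 d1 a2 b2 d2 a3 b3 d3
    rw [e1, e2]
    have := opt hC hu hP hr (by linarith) (by linarith) m3
    linarith
  · obtain ⟨C, u, P, r, hC, hu, hP, hr, e1, e2, m1, m2, m3⟩ :=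
      star_parts D hK hd ih hS h0 a1 b1 d1 a2 b2 d2 a3 b3 d3
    rw [e1, e2]
    have := optA hC hu hP hr (by linarith) (by linarith) m3
    linarith

end Pool.Agent.Lib.TWt
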