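import Pool.Agent.Lib.TWt.StepOrd
import Pool.Agent.Lib.TWt.StepStar

set_option autoImplicit false

namespace Pool.Agent.Lib.TWt

open Pool.Agent.Lib.TDen

theorem stepW (D : Diagram) {x y G : D.E → ℝ} (hK : ∀ e, Kd (x e) (y e) (G e))
    {A B : Finset D.E} (hG : D.Good A B)
    (ih : ∀ A' B' : Finset D.E, Disjoint A' B' →
      (D.rest A' B').card < (D.rest A B).card → NW D x y A' B' ≤ ∏ e ∈ D.rest A' B', G e)
    (c : Comp D.g B) (hc : degR D.g B (D.rest A B) c ≤ 3) :
    NW D x y A B ≤ ∏ e ∈ D.rest A B, G e := by
  classical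
  have hx0 : ∀ e, 0 ≤ x e := fun e => (hK e).pos.1.le
  have hy0 : ∀ e, 0 ≤ y e := fun e => (hK e).pos.2.1.le
  have hG0 : ∀ e, 0 ≤ G e := fun e => (hK e).pos.2.2.1.le
  have hxG : ∀ e, x e ≤ G e := fun e => (hK e).pos.2.2.2.1
  have hyG : ∀ e, y e ≤ G e := fun e => (hK e).pos.2.2.2.2
  by_cases hcomp : comps D.g B = 1
  · exact (NW_le_prod hcomp hy0).trans
      (Finset.prod_le_prod (fun e _ => hy0 e) (fun e _ => hyG e))
  have hdis : Disjoint A B := hG.1
  have mem_rest : ∀ e, e ∈ D.rest A B → e ∉ A ∧ e ∉ B := by
    intro e he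
    unfold Diagram.rest at he
    rw [Finset.mem_compl, Finset.mem_union, not_or] at he
    exact he
  -- the cut
  set X : Finset D.E := (D.rest A B).filter fun e =>
    ((Quot.mk (Rel D.g B) (D.g e).1 : Comp D.g B) = c
      ↔ ¬ (Quot.mk (Rel D.g B) (D.g e).2 : Comp D.g B) = c) with hX
  have hXr : ∀ e ∈ X, e ∈ D.rest A B := fun e he => (Finset.mem_filter.1 he).1
  have hXone : ∀ e ∈ X, ((Quot.mk (Rel D.g B) (D.g e).1 : Comp D.g B) = c
      ↔ ¬ (Quot.mk (Rel D.g B) (D.g e).2 : Comp D.g B) = c) :=
    fun e he => (Finset.mem_filter.1 he).2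
  have hzero : ∀ A', A ⊆ A' → X ⊆ A' → NW D x y A' B = 0 := by
    intro A' hAA hXA
    exact NW_of_cut c hcomp hAA fun e he hx => hXA (Finset.mem_filter.2 ⟨he, hx⟩)
  -- degrees
  have hsum : X.card + ∑ e ∈ D.rest A B \ X,
      ((if (Quot.mk (Rel D.g B) (D.g e).1 : Comp D.g B) = c then 1 else 0)
      + (if (Quot.mk (Rel D.g B) (D.g e).2 : Comp D.g B) = c then 1 else 0)) ≤ 3 := by
    refine le_trans (le_of_eq ?_) hc
    unfold degR
    rw [← Finset.sum_sdiff (Finset.filter_subset _ _ : X ⊆ D.rest A B), add_comm]
    congr 1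
    rw [Finset.card_eq_sum_ones]
    apply Finset.sum_congr rfl
    intro e he
    have h2 := hXone e he
    by_cases h3 : (Quot.mk (Rel D.g B) (D.g e).1 : Comp D.g B) = c
    · rw [if_pos h3, if_neg (h2.1 h3)]
    · have h4 : (Quot.mk (Rel D.g B) (D.g e).2 : Comp D.g B) = c := by
        by_contra h5
        exact h3 (h2.2 h5)
      rw [if_neg h3, if_pos h4]
  obtain hX0 | hX1 | hX2 | hX3 : X.card = 0 ∨ X.card = 1 ∨ X.card = 2 ∨ X.card = 3 := by omega
  · -- no edge
    rw [Finset.card_eq_zero] at hX0
    have h2 := hzero A subset_rfl (by rw [hX0]; exact Finset.empty_subset _)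
    rw [h2]
    exact Finset.prod_nonneg fun e _ => hG0 e
  · -- one edge
    rw [Finset.card_eq_one] at hX1
    obtain ⟨a, ha⟩ := hX1
    have har : a ∈ D.rest A B := hXr a (by rw [ha]; simp)
    have h2 := hzero (insert a A) (Finset.subset_insert _ _) (by rw [ha]; simp)
    have h3 := NW_split (x := x) (y := y) (mem_rest a har).1 (mem_rest a har).2
    rw [h2, mul_zero, zero_add] at h3
    have h4 : NW D x y A (insert a B) ≤ ∏ e ∈ (D.rest A B).erase a, G e := by
      have h5 := ih A (insert a B)
        (by rw [Finset.disjoint_insert_right]; exact ⟨(mem_rest a har).1, hdis⟩)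
        (by rw [rest_insB]; exact Finset.card_erase_lt_of_mem har)
      rwa [rest_insB] at h5
    rw [h3, ← Finset.mul_prod_erase (D.rest A B) G har]
    exact mul_le_mul (hxG a) h4 (NW_nonneg hx0 hy0) (hG0 a)
  · -- two edges
    rw [Finset.card_eq_two] at hX2
    obtain ⟨a, b, hab, hXab⟩ := hX2
    have har : a ∈ D.rest A B := hXr a (by rw [hXab]; simp)
    have hbr : b ∈ D.rest A B := hXr b (by rw [hXab]; simp)
    have hbe : b ∈ (D.rest A B).erase a := Finset.mem_erase.2 ⟨hab.symm, hbr⟩
    have h2 := hzero (insert b (insert a A))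
      ((Finset.subset_insert _ _).trans (Finset.subset_insert _ _)) (by
        rw [hXab]
        intro z hz
        simp only [Finset.mem_insert, Finset.mem_singleton] at hz ⊢
        tauto)
    have h3 := NW_split (x := x) (y := y) (mem_rest a har).1 (mem_rest a har).2
    have h4 : NW D x y (insert a A) B = y b * NW D x y (insert b (insert a A)) B +
        x b * NW D x y (insert a A) (insert b B) := by
      apply NW_split
      · rw [Finset.mem_insert, not_or]
        exact ⟨hab.symm, (mem_rest b hbr).1⟩
      · exact (mem_rest b hbr).2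
    rw [h2, mul_zero, zero_add] at h4
    set W2 : ℝ := ∏ e ∈ ((D.rest A B).erase a).erase b, G e with hW2
    have hW20 : 0 ≤ W2 := Finset.prod_nonneg fun e _ => hG0 e
    have hWW : ∏ e ∈ D.rest A B, G e = G a * (G b * W2) := by
      rw [hW2, Finset.mul_prod_erase _ G hbe, Finset.mul_prod_erase _ G har]
    have h5 : NW D x y A (insert a B) ≤ G b * W2 := by
      have h5 := ih A (insert a B)
        (by rw [Finset.disjoint_insert_right]; exact ⟨(mem_rest a har).1, hdis⟩)
        (by rw [rest_insB]; exact Finset.card_erase_lt_of_mem har)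
      rwa [rest_insB, ← Finset.mul_prod_erase _ G hbe] at h5
    have h6 : NW D x y (insert a A) (insert b B) ≤ W2 := by
      have h6 := ih (insert a A) (insert b B)
        (by
          rw [Finset.disjoint_insert_right, Finset.disjoint_insert_left, Finset.mem_insert,
            not_or]
          exact ⟨⟨hab.symm, (mem_rest b hbr).1⟩, (mem_rest a har).2, hdis⟩)
        (by
          rw [rest_insB, rest_insA]
          exact (Finset.card_erase_lt_of_mem hbe).trans (Finset.card_erase_lt_of_mem har))
      rwa [rest_insB, rest_insA] at h6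
    have h7 := num_two (hK a) (hK b)
    rw [h3, h4, hWW]
    calc y a * (x b * NW D x y (insert a A) (insert b B)) + x a * NW D x y A (insert a B)
        ≤ y a * (x b * W2) + x a * (G b * W2) :=
          add_le_add (mul_le_mul_of_nonneg_left (mul_le_mul_of_nonneg_left h6 (hx0 b)) (hy0 a))
            (mul_le_mul_of_nonneg_left h5 (hx0 a))
      _ = (x a * G b + y a * x b) * W2 := by ring
      _ ≤ (G a * G b) * W2 := mul_le_mul_of_nonneg_right h7 hW20
      _ = G a * (G b * W2) := by ring
  · -- three edges
    rw [Finset.card_eq_three] at hX3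
    obtain ⟨a, b, d, hab, had, hbd, hXabd⟩ := hX3
    have har : a ∈ D.rest A B := hXr a (by rw [hXabd]; simp)
    have hbr : b ∈ D.rest A B := hXr b (by rw [hXabd]; simp)
    have hdr : d ∈ D.rest A B := hXr d (by rw [hXabd]; simp)
    have hc3 : X.card = 3 := by
      rw [hXabd]
      exact Finset.card_eq_three.2 ⟨a, b, d, hab, had, hbd, rfl⟩
    have hStar : Star D A B c a b d := by
      refine ⟨hG, hab, had, hbd, har, hbr, hdr, ?_, ?_⟩
      · intro e _ he
        apply hXone
        rw [hXabd]
        simp only [Finset.mem_insert, Finset.mem_singleton]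
        exact he
      · intro e he hea heb hed
        have hz : ∑ e ∈ D.rest A B \ X,
            ((if (Quot.mk (Rel D.g B) (D.g e).1 : Comp D.g B) = c then 1 else 0)
            + (if (Quot.mk (Rel D.g B) (D.g e).2 : Comp D.g B) = c then 1 else 0)) = 0 := by
          omega
        rw [Finset.sum_eq_zero_iff] at hz
        have hz' := hz e (by
          rw [Finset.mem_sdiff, hXabd]
          refine ⟨he, ?_⟩
          simp only [Finset.mem_insert, Finset.mem_singleton]
          tauto)
        constructor
        · intro h5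
          rw [if_pos h5] at hz'
          omega
        · intro h5
          rw [if_pos h5] at hz'
          omega
    have hz3 : ∀ p q r : D.E, ({p, q, r} : Finset D.E) = {a, b, d} →
        NW D x y (insert r (insert q (insert p A))) B = 0 := by
      intro p q r hpqr
      apply hzero
      · exact ((Finset.subset_insert _ _).trans (Finset.subset_insert _ _)).trans
          (Finset.subset_insert _ _)
      · rw [hXabd, ← hpqr]
        intro z hz
        simp only [Finset.mem_insert, Finset.mem_singleton] at hz ⊢
        tauto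
    have e1 : ({a, d, b} : Finset D.E) = {a, b, d} := by
      ext z; simp only [Finset.mem_insert, Finset.mem_singleton]; tauto
    have e2 : ({b, a, d} : Finset D.E) = {a, b, d} := by
      ext z; simp only [Finset.mem_insert, Finset.mem_singleton]; tauto
    have e3 : ({b, d, a} : Finset D.E) = {a, b, d} := by
      ext z; simp only [Finset.mem_insert, Finset.mem_singleton]; tauto
    have e4 : ({d, a, b} : Finset D.E) = {a, b, d} := by
      ext z; simp only [Finset.mem_insert, Finset.mem_singleton]; tauto
    have e5 : ({d, b, a} : Finset D.E) = {a, b, d} := by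
      ext z; simp only [Finset.mem_insert, Finset.mem_singleton]; tauto
    rcases num_three (hK a) (hK b) (hK d) with h | h | h | h | h | h | h | h
    · exact step_star D hK hdis ih hStar (hz3 a b d rfl) (Or.inl h)
    · exact step_star D hK hdis ih hStar (hz3 a b d rfl) (Or.inr h)
    · exact step_ord D hK hdis ih hab had hbd har hbr hdr (hz3 a b d rfl) h
    · exact step_ord D hK hdis ih had hab hbd.symm har hdr hbr (hz3 a d b e1) h
    · exact step_ord D hK hdis ih hab.symm hbd had hbr har hdr (hz3 b a d e2) h
    · exact step_ord D hK hdis ih hbd hab.symm had.symm hbr hdr har (hz3 b d a e3) h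
    · exact step_ord D hK hdis ih had.symm hbd.symm hab hdr har hbr (hz3 d a b e4) h
    · exact step_ord D hK hdis ih hbd.symm had.symm hab.symm hdr hbr har (hz3 d b a e5) h

end Pool.Agent.Lib.TWt
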